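import Mathlib

set_option autoImplicit false

/-!
Honeycomb skeletons in the triangular lattice (coordinates: pairs of integers; the six unit
vectors are `±(1,0)`, `±(0,1)`, `±(1,-1)`), and the counting inequality that is the heart of the
proof of the Steiner ratio.
-/

namespace Pool.Agent.Lib.MP_0d3a8b_co

/-- Points of the triangular lattice in two coordinates. -/
abbrev Pt := ℤ × ℤ

/-- The hexagonal distance of `p` and `q` is at most `r`. -/
def Near (r : ℤ) (p q : Pt) : Prop :=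
  (-r ≤ p.1 - q.1 ∧ p.1 - q.1 ≤ r) ∧ (-r ≤ p.2 - q.2 ∧ p.2 - q.2 ≤ r) ∧
  (-r ≤ (p.1 - q.1) + (p.2 - q.2) ∧ (p.1 - q.1) + (p.2 - q.2) ≤ r)

instance (r : ℤ) (p q : Pt) : Decidable (Near r p q) := by unfold Near; infer_instance

lemma Near.symm {r : ℤ} {p q : Pt} (h : Near r p q) : Near r q p := by
  unfold Near at *; omega

/-- Translate `p` by `s` times `d`. -/
def sh (p d : Pt) (s : ℤ) : Pt := (p.1 + s * d.1, p.2 + s * d.2)

/-- Three of the six unit vectors. -/
def dir : Fin 3 → Pt := ![(1, 0), (0, 1), (1, -1)]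

lemma dir0 : dir 0 = (1, 0) := rfl

lemma dir1 : dir 1 = (0, 1) := rfl

lemma dir2 : dir 2 = (1, -1) := rfl

lemma fin3_cases (i : Fin 3) : i = 0 ∨ i = 1 ∨ i = 2 := by
  fin_cases i <;> simp

/-- The three-colouring of the coarse lattice of mesh `m`. -/
def cls (m : ℕ) (p : Pt) : ZMod 3 := ((p.1 / (m : ℤ) - p.2 / (m : ℤ) : ℤ) : ZMod 3)

/-! ### A graph lemma -/

lemma graph_lemma {α β ε : Type*} [DecidableEq β]
    (W : Finset α) (E : Finset ε) (s t : ε → α) (hne : W.Nonempty)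
    (hE : ∀ e ∈ E, s e ∈ W ∧ t e ∈ W)
    (conn : ∀ a ∈ W, ∀ b ∈ W, Relation.ReflTransGen
      (fun x y => ∃ e ∈ E, (s e = x ∧ t e = y) ∨ (s e = y ∧ t e = x)) a b)
    (g : α → β) :
    (W.image g).card ≤ (E.filter (fun e => g (s e) ≠ g (t e))).card + 1 := by
  classical
  let V := {x // x ∈ W.image g}
  let G : SimpleGraph V :=
    { Adj := fun a b => a ≠ b ∧ ∃ e ∈ E, (g (s e) = a.1 ∧ g (t e) = b.1) ∨
        (g (s e) = b.1 ∧ g (t e) = a.1)
      symm := ⟨by
        rintro a b ⟨h1, e, he, h2⟩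
        exact ⟨h1.symm, e, he, h2.symm⟩⟩
      loopless := ⟨by
        rintro a ⟨h1, -⟩
        exact h1 rfl⟩ }
  have hmem : ∀ a ∈ W, g a ∈ W.image g := fun a ha => Finset.mem_image_of_mem g ha
  have hreach : ∀ a b : α, Relation.ReflTransGen
      (fun x y => ∃ e ∈ E, (s e = x ∧ t e = y) ∨ (s e = y ∧ t e = x)) a b →
      ∀ ha : a ∈ W, ∃ hb : b ∈ W, G.Reachable ⟨g a, hmem a ha⟩ ⟨g b, hmem b hb⟩ := by
    intro a b h ha
    induction h with
    | refl => exact ⟨ha, SimpleGraph.Reachable.refl _⟩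
    | @tail b' c' _ hbc ih =>
      obtain ⟨hb, hr⟩ := ih
      obtain ⟨e, he, h2⟩ := hbc
      have hc : c' ∈ W := by
        rcases h2 with ⟨_, h⟩ | ⟨h, _⟩
        · rw [← h]; exact (hE e he).2
        · rw [← h]; exact (hE e he).1
      refine ⟨hc, hr.trans ?_⟩
      by_cases hgg : g b' = g c'
      · have : (⟨g b', hmem b' hb⟩ : V) = ⟨g c', hmem c' hc⟩ := Subtype.ext hgg
        rw [this]
      · refine SimpleGraph.Adj.reachable ?_
        refine ⟨fun h => hgg (congrArg Subtype.val h), e, he, ?_⟩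
        rcases h2 with ⟨h3, h4⟩ | ⟨h3, h4⟩
        · left; exact ⟨by rw [h3], by rw [h4]⟩
        · right; exact ⟨by rw [h3], by rw [h4]⟩
  have hconn : G.Connected := by
    obtain ⟨w, hw⟩ := hne
    have : Nonempty V := ⟨⟨g w, hmem w hw⟩⟩
    refine ⟨?_⟩
    rintro ⟨a, ha⟩ ⟨b, hb⟩
    obtain ⟨a', ha', rfl⟩ := Finset.mem_image.1 ha
    obtain ⟨b', hb', rfl⟩ := Finset.mem_image.1 hb
    obtain ⟨_, h⟩ := hreach a' b' (conn a' ha' b' hb') ha'
    exact h
  have h1 := hconn.card_vert_le_card_edgeSet_add_one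
  have h2 : Nat.card V = (W.image g).card := by
    rw [Nat.card_eq_fintype_card, Fintype.card_coe]
  rw [h2] at h1
  refine h1.trans ?_
  have h3 : Nat.card G.edgeSet ≤ (E.filter (fun e => g (s e) ≠ g (t e))).card := by
    have hfin : Nat.card G.edgeSet = G.edgeSet.ncard := rfl
    rw [hfin]
    let f : Sym2 V → Sym2 β := Sym2.map Subtype.val
    have hf : Function.Injective f := Sym2.map.injective Subtype.val_injective
    rw [← Set.ncard_image_of_injective G.edgeSet hf]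
    have hsub : f '' G.edgeSet ⊆
        (((E.filter (fun e => g (s e) ≠ g (t e))).image (fun e => s(g (s e), g (t e))) :
          Finset (Sym2 β)) : Set (Sym2 β)) := by
      rintro _ ⟨x, hx, rfl⟩
      induction x with
      | _ a b =>
        rw [SimpleGraph.mem_edgeSet] at hx
        obtain ⟨hab, e, he, h4⟩ := hx
        rw [Finset.mem_coe, Finset.mem_image]
        have hab' : a.1 ≠ b.1 := fun h => hab (Subtype.ext h)
        refine ⟨e, ?_, ?_⟩
        · rw [Finset.mem_filter]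
          refine ⟨he, ?_⟩
          rcases h4 with ⟨h5, h6⟩ | ⟨h5, h6⟩
          · rw [h5, h6]; exact hab'
          · rw [h5, h6]; exact hab'.symm
        · rcases h4 with ⟨h5, h6⟩ | ⟨h5, h6⟩
          · simp [f, h5, h6]
          · simp [f, h5, h6, Sym2.eq_swap]
    refine (Set.ncard_le_ncard hsub (Finset.finite_toSet _)).trans ?_
    rw [Set.ncard_coe_finset]
    exact Finset.card_image_le
  omega

/-! ### Honeycombs -/

/-- All lattice points of the coarse edge with label `e` lie in `Z`. -/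
def Seg (m : ℕ) (Z : Finset Pt) (e : Fin 3 × Pt) : Prop :=
  ∀ s ∈ Finset.range (m + 1), sh e.2 (dir e.1) (s : ℤ) ∈ Z

instance (m : ℕ) (Z : Finset Pt) (e : Fin 3 × Pt) : Decidable (Seg m Z e) := by
  unfold Seg; infer_instance

/-- The corners in `Z` of the honeycomb with index `v`. -/
def nodes (m : ℕ) (Z : Finset Pt) (v : ℤ × ℤ × ZMod 3) : Finset Pt :=
  Z.filter (fun p => p.1 % (m : ℤ) = v.1 ∧ p.2 % (m : ℤ) = v.2.1 ∧ cls m p ≠ v.2.2)

/-- The sides, contained in `Z`, of the honeycomb with index `v`. -/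
def edges (m : ℕ) (Z : Finset Pt) (v : ℤ × ℤ × ZMod 3) : Finset (Fin 3 × Pt) :=
  (Finset.univ ×ˢ Z).filter (fun e => Seg m Z e ∧ e.2.1 % (m : ℤ) = v.1 ∧
    e.2.2 % (m : ℤ) = v.2.1 ∧ cls m e.2 ≠ v.2.2 ∧ cls m (sh e.2 (dir e.1) m) ≠ v.2.2)

/-- Starting points of the segments of direction `d` and length `m` contained in `Z`. -/
def segs (m : ℕ) (Z : Finset Pt) (d : Fin 3) : Finset Pt :=
  Z.filter (fun p => Seg m Z (d, p))

/-- The set of indices of the honeycombs. -/
noncomputable def idx (m : ℕ) : Finset (ℤ × ℤ × ZMod 3) :=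
  Finset.Ico 0 (m : ℤ) ×ˢ (Finset.Ico 0 (m : ℤ) ×ˢ (Finset.univ : Finset (ZMod 3)))

lemma card_idx (m : ℕ) : (idx m).card = m * (m * 3) := by
  simp [idx, Finset.card_product, ZMod.card]

lemma cls_sh (m : ℕ) (hm : 0 < m) (p d : Pt) :
    cls m (sh p d m) = cls m p + ((d.1 - d.2 : ℤ) : ZMod 3) := by
  have hm' : (m : ℤ) ≠ 0 := by exact_mod_cast hm.ne'
  unfold cls sh
  simp only
  rw [Int.add_mul_ediv_left _ _ hm', Int.add_mul_ediv_left _ _ hm']
  push_cast
  ring

lemma sum_nodes (m : ℕ) (hm : 0 < m) (Z : Finset Pt) :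
    ∑ v ∈ idx m, (nodes m Z v).card = 2 * Z.card := by
  have hm' : (m : ℤ) ≠ 0 := by exact_mod_cast hm.ne'
  have hm'' : (0 : ℤ) < m := by exact_mod_cast hm
  unfold nodes
  simp_rw [Finset.card_filter]
  rw [Finset.sum_comm]
  have h : ∀ p ∈ Z, (∑ v ∈ idx m, if p.1 % (m : ℤ) = v.1 ∧ p.2 % (m : ℤ) = v.2.1 ∧
      cls m p ≠ v.2.2 then 1 else 0) = 2 := by
    intro p _
    rw [← Finset.card_filter]
    have : (idx m).filter (fun v => p.1 % (m : ℤ) = v.1 ∧ p.2 % (m : ℤ) = v.2.1 ∧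
        cls m p ≠ v.2.2) = {p.1 % (m : ℤ)} ×ˢ ({p.2 % (m : ℤ)} ×ˢ
          (Finset.univ.erase (cls m p))) := by
      ext ⟨a, b, j⟩
      simp only [idx, Finset.mem_filter, Finset.mem_product, Finset.mem_Ico, Finset.mem_univ,
        and_true, Finset.mem_singleton, Finset.mem_erase, ne_eq]
      constructor
      · rintro ⟨_, h1, h2, h3⟩
        exact ⟨h1.symm, h2.symm, fun h => h3 h.symm⟩
      · rintro ⟨h1, h2, h3⟩
        refine ⟨⟨?_, ?_⟩, h1.symm, h2.symm, fun h => h3 h.symm⟩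
        · rw [h1]; exact ⟨Int.emod_nonneg _ hm', Int.emod_lt_of_pos _ hm''⟩
        · rw [h2]; exact ⟨Int.emod_nonneg _ hm', Int.emod_lt_of_pos _ hm''⟩
    rw [this, Finset.card_product, Finset.card_product, Finset.card_erase_of_mem (Finset.mem_univ _)]
    simp [ZMod.card]
  rw [Finset.sum_congr rfl h, Finset.sum_const]
  simp [mul_comm]

lemma dir_ne (i : Fin 3) :
    (((dir i).1 - (dir i).2 : ℤ) : ZMod 3) = 1 ∨ (((dir i).1 - (dir i).2 : ℤ) : ZMod 3) = 2 := by
  fin_cases i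
  · left; simp [dir]
  · right; simp [dir]; decide
  · right; simp [dir]

lemma sum_edges (m : ℕ) (hm : 0 < m) (Z : Finset Pt) :
    ∑ v ∈ idx m, (edges m Z v).card = ∑ i : Fin 3, (segs m Z i).card := by
  have hm' : (m : ℤ) ≠ 0 := by exact_mod_cast hm.ne'
  have hm'' : (0 : ℤ) < m := by exact_mod_cast hm
  unfold edges segs
  simp_rw [Finset.card_filter]
  rw [Finset.sum_comm]
  rw [Finset.sum_product]
  refine Finset.sum_congr rfl fun i _ => Finset.sum_congr rfl fun p _ => ?_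
  by_cases hs : Seg m Z (i, p)
  · rw [if_pos hs, ← Finset.card_filter]
    have : (idx m).filter (fun v => Seg m Z (i, p) ∧ p.1 % (m : ℤ) = v.1 ∧ p.2 % (m : ℤ) = v.2.1 ∧
        cls m p ≠ v.2.2 ∧ cls m (sh p (dir i) m) ≠ v.2.2) =
        {p.1 % (m : ℤ)} ×ˢ ({p.2 % (m : ℤ)} ×ˢ
          ((Finset.univ : Finset (ZMod 3)).filter
            (fun j => cls m p ≠ j ∧ cls m (sh p (dir i) m) ≠ j))) := by
      ext ⟨a, b, j⟩
      simp only [idx, Finset.mem_filter, Finset.mem_product, Finset.mem_Ico, Finset.mem_univ,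
        and_true, true_and, Finset.mem_singleton, ne_eq]
      constructor
      · rintro ⟨_, _, h1, h2, h3⟩
        exact ⟨h1.symm, h2.symm, h3⟩
      · rintro ⟨h1, h2, h3⟩
        refine ⟨⟨?_, ?_⟩, hs, h1.symm, h2.symm, h3⟩
        · rw [h1]; exact ⟨Int.emod_nonneg _ hm', Int.emod_lt_of_pos _ hm''⟩
        · rw [h2]; exact ⟨Int.emod_nonneg _ hm', Int.emod_lt_of_pos _ hm''⟩
    rw [this, Finset.card_product, Finset.card_product, Finset.card_singleton,
      Finset.card_singleton, one_mul, one_mul, cls_sh m hm]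
    rcases dir_ne i with h | h
    · rw [h]
      generalize cls m p = a
      revert a
      decide
    · rw [h]
      generalize cls m p = a
      revert a
      decide
  · rw [if_neg hs]
    simp [hs]

lemma Seg.mono {m : ℕ} {Z Z' : Finset Pt} (h : Z ⊆ Z') {e : Fin 3 × Pt} (hs : Seg m Z e) :
    Seg m Z' e := fun s hs' => h (hs s hs')

lemma nodes_mono {m : ℕ} {Z Z' : Finset Pt} (h : Z ⊆ Z') (v : ℤ × ℤ × ZMod 3) :
    nodes m Z v ⊆ nodes m Z' v := Finset.filter_subset_filter _ h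

lemma edges_mono {m : ℕ} {Z Z' : Finset Pt} (h : Z ⊆ Z') (v : ℤ × ℤ × ZMod 3) :
    edges m Z v ⊆ edges m Z' v := by
  intro e he
  simp only [edges, Finset.mem_filter, Finset.mem_product] at he ⊢
  exact ⟨⟨he.1.1, h he.1.2⟩, he.2.1.mono h, he.2.2⟩

lemma sh_zero (p d : Pt) : sh p d 0 = p := by
  simp [sh]

lemma sh_succ (p d : Pt) (s : ℤ) : sh p d (s + 1) = sh (sh p d s) d 1 := by
  simp only [sh, Prod.mk.injEq]
  constructor <;> ring

lemma edge_mem {m : ℕ} {Z : Finset Pt} {v : ℤ × ℤ × ZMod 3} {e : Fin 3 × Pt}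
    (he : e ∈ edges m Z v) :
    e.2 ∈ nodes m Z v ∧ sh e.2 (dir e.1) m ∈ nodes m Z v := by
  simp only [edges, Finset.mem_filter, Finset.mem_product] at he
  obtain ⟨⟨_, h1⟩, hs, h2, h3, h4, h5⟩ := he
  simp only [nodes, Finset.mem_filter]
  refine ⟨⟨h1, h2, h3, h4⟩, ?_, ?_, ?_, h5⟩
  · exact hs m (by simp)
  · simp [sh, h2]
  · simp [sh, h3]

lemma index_ineq {ι : Type*} [DecidableEq ι] (m : ℕ) (ZX ZT : Finset Pt)
    (hsub : ZX ⊆ ZT) (lab : Pt → ι) (Λ : Finset ι)
    (L1 : ∀ p ∈ ZX, ∀ i : Fin 3, sh p (dir i) 1 ∈ ZX → lab (sh p (dir i) 1) = lab p)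
    (v : ℤ × ℤ × ZMod 3)
    (L2 : ∀ l ∈ Λ, ∃ w ∈ nodes m ZX v, lab w = l)
    (hne : (nodes m ZT v).Nonempty)
    (conn : ∀ a ∈ nodes m ZT v, ∀ b ∈ nodes m ZT v, Relation.ReflTransGen
      (fun x y => ∃ e ∈ edges m ZT v, (e.2 = x ∧ sh e.2 (dir e.1) m = y) ∨
        (e.2 = y ∧ sh e.2 (dir e.1) m = x)) a b) :
    ((nodes m ZT v).card : ℤ) - (nodes m ZX v).card + (Λ.card - 1) ≤
      (edges m ZT v).card - (edges m ZX v).card := by
  classical
  let g : Pt → ι ⊕ Pt := fun p => if p ∈ ZX then Sum.inl (lab p) else Sum.inr p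
  have h1 := graph_lemma (nodes m ZT v) (edges m ZT v) (fun e => e.2)
    (fun e => sh e.2 (dir e.1) m) hne (fun e he => edge_mem he) conn g
  have h2 : (Λ.image Sum.inl : Finset (ι ⊕ Pt)) ∪
      (nodes m ZT v \ nodes m ZX v).image Sum.inr ⊆ (nodes m ZT v).image g := by
    intro x hx
    rw [Finset.mem_union, Finset.mem_image, Finset.mem_image] at hx
    rw [Finset.mem_image]
    rcases hx with ⟨l, hl, rfl⟩ | ⟨p, hp, rfl⟩
    · obtain ⟨w, hw, hlw⟩ := L2 l hl
      refine ⟨w, nodes_mono hsub v hw, ?_⟩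
      have : w ∈ ZX := (Finset.mem_filter.1 hw).1
      simp only [g, this, if_true, hlw]
    · rw [Finset.mem_sdiff] at hp
      refine ⟨p, hp.1, ?_⟩
      have : p ∉ ZX := by
        intro hpX
        apply hp.2
        simp only [nodes, Finset.mem_filter] at hp ⊢
        exact ⟨hpX, hp.1.2⟩
      simp only [g, this, if_false]
  have h3 : Λ.card + ((nodes m ZT v).card - (nodes m ZX v).card) ≤
      ((nodes m ZT v).image g).card := by
    refine le_trans ?_ (Finset.card_le_card h2)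
    rw [Finset.card_union_of_disjoint]
    · rw [Finset.card_image_of_injective _ Sum.inl_injective,
        Finset.card_image_of_injective _ Sum.inr_injective,
        Finset.card_sdiff_of_subset (nodes_mono hsub v)]
    · rw [Finset.disjoint_left]
      intro x hx hx'
      rw [Finset.mem_image] at hx hx'
      obtain ⟨a, _, rfl⟩ := hx
      obtain ⟨b, _, h⟩ := hx'
      cases h
  have h4 : (edges m ZT v).filter (fun e => g e.2 ≠ g (sh e.2 (dir e.1) m)) ⊆
      edges m ZT v \ edges m ZX v := by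
    intro e he
    rw [Finset.mem_filter] at he
    rw [Finset.mem_sdiff]
    refine ⟨he.1, fun heX => he.2 ?_⟩
    have hseg : Seg m ZX e := (Finset.mem_filter.1 heX).2.1
    have hlab : ∀ s : ℕ, s ≤ m → lab (sh e.2 (dir e.1) s) = lab e.2 := by
      intro s
      induction s with
      | zero => intro _; simp [sh_zero]
      | succ k ih =>
        intro hk
        rw [← ih (by omega)]
        have h5 : sh e.2 (dir e.1) (k : ℤ) ∈ ZX := hseg k (by simp; omega)
        have h6 : sh e.2 (dir e.1) ((k + 1 : ℕ) : ℤ) ∈ ZX := hseg (k + 1) (by simp; omega)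
        push_cast at h6 ⊢
        rw [sh_succ] at h6 ⊢
        exact L1 _ h5 _ h6
    have h7 : e.2 ∈ ZX := by
      have := hseg 0 (by simp)
      simpa [sh_zero] using this
    have h8 : sh e.2 (dir e.1) m ∈ ZX := hseg m (by simp)
    simp only [g, h7, h8, if_true, hlab m le_rfl]
  have h5 := Finset.card_le_card h4
  rw [Finset.card_sdiff_of_subset (edges_mono hsub v)] at h5
  have h6 := Finset.card_le_card (nodes_mono (m := m) hsub v)
  have h7 := Finset.card_le_card (edges_mono (m := m) hsub v)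
  omega

/-- The honeycomb inequality. -/
theorem coarse_ineq {ι : Type*} [DecidableEq ι] (m : ℕ) (hm : 0 < m) (ZX ZT : Finset Pt)
    (hsub : ZX ⊆ ZT) (lab : Pt → ι) (Λ : Finset ι)
    (L1 : ∀ p ∈ ZX, ∀ i : Fin 3, sh p (dir i) 1 ∈ ZX → lab (sh p (dir i) 1) = lab p)
    (L2 : ∀ l ∈ Λ, ∀ v ∈ idx m, ∃ w ∈ nodes m ZX v, lab w = l)
    (hne : ∀ v ∈ idx m, (nodes m ZT v).Nonempty)
    (conn : ∀ v ∈ idx m, ∀ a ∈ nodes m ZT v, ∀ b ∈ nodes m ZT v, Relation.ReflTransGen
      (fun x y => ∃ e ∈ edges m ZT v, (e.2 = x ∧ sh e.2 (dir e.1) m = y) ∨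
        (e.2 = y ∧ sh e.2 (dir e.1) m = x)) a b) :
    2 * (ZT.card : ℤ) - 2 * ZX.card + 3 * (m * m) * (Λ.card - 1) ≤
      ∑ i : Fin 3, ((segs m ZT i).card : ℤ) - ∑ i : Fin 3, ((segs m ZX i).card : ℤ) := by
  have h := Finset.sum_le_sum (fun v hv => index_ineq m ZX ZT hsub lab Λ L1 v
    (fun l hl => L2 l hl v hv) (hne v hv) (conn v hv))
  simp only [Finset.sum_add_distrib, Finset.sum_sub_distrib, Finset.sum_const, card_idx] at h
  have h1 := sum_nodes m hm ZT
  have h2 := sum_nodes m hm ZX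
  have h3 := sum_edges m hm ZT
  have h4 := sum_edges m hm ZX
  have e1 : ∑ v ∈ idx m, ((nodes m ZT v).card : ℤ) = 2 * ZT.card := by exact_mod_cast h1
  have e2 : ∑ v ∈ idx m, ((nodes m ZX v).card : ℤ) = 2 * ZX.card := by exact_mod_cast h2
  have e3 : ∑ v ∈ idx m, ((edges m ZT v).card : ℤ) = ∑ i : Fin 3, ((segs m ZT i).card : ℤ) := by
    exact_mod_cast h3
  have e4 : ∑ v ∈ idx m, ((edges m ZX v).card : ℤ) = ∑ i : Fin 3, ((segs m ZX i).card : ℤ) := by
    exact_mod_cast h4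
  rw [e1, e2, e3, e4] at h
  simp only [nsmul_eq_mul] at h
  push_cast at h
  linarith

end Pool.Agent.Lib.MP_0d3a8b_co
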