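import Mathlib
import Pool.Agent.Lib.MP_0d3a8b_co.Coarse

set_option autoImplicit false

/-!
Connectivity of the part of a honeycomb inside a union of hexagons centred at a connected set.
-/

namespace Pool.Agent.Lib.MP_0d3a8b_co

/-- One step along a side, contained in `Z`, of the honeycomb with index `v`. -/
def Rel (m : ℕ) (Z : Finset Pt) (v : ℤ × ℤ × ZMod 3) (x y : Pt) : Prop :=
  ∃ e ∈ edges m Z v, (e.2 = x ∧ sh e.2 (dir e.1) m = y) ∨
        (e.2 = y ∧ sh e.2 (dir e.1) m = x)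

lemma Rel.symm {m : ℕ} {Z : Finset Pt} {v : ℤ × ℤ × ZMod 3} {x y : Pt} (h : Rel m Z v x y) :
    Rel m Z v y x := by
  obtain ⟨e, he, h⟩ := h
  exact ⟨e, he, h.symm⟩

lemma rtg_symm {m : ℕ} {Z : Finset Pt} {v : ℤ × ℤ × ZMod 3} {x y : Pt}
    (h : Relation.ReflTransGen (Rel m Z v) x y) : Relation.ReflTransGen (Rel m Z v) y x := by
  induction h with
  | refl => exact Relation.ReflTransGen.refl
  | tail _ hbc ih => exact Relation.ReflTransGen.head hbc.symm ih

section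

variable {m : ℕ} {Z : Finset Pt} {v : ℤ × ℤ × ZMod 3} {t : Pt}

lemma step (hZ : ∀ q, Near m q t → q ∈ Z) {p q : Pt} (i : Fin 3)
    (hq : q = sh p (dir i) m)
    (hp : p.1 % (m : ℤ) = v.1 ∧ p.2 % (m : ℤ) = v.2.1 ∧ cls m p ≠ v.2.2)
    (hq' : cls m q ≠ v.2.2)
    (h1 : Near m p t) (h2 : Near m q t) : Rel m Z v p q := by
  subst hq
  refine ⟨(i, p), ?_, Or.inl ⟨rfl, rfl⟩⟩
  simp only [edges, Finset.mem_filter, Finset.mem_product, Finset.mem_univ, true_and]
  refine ⟨hZ p h1, ?_, hp.1, hp.2.1, hp.2.2, hq'⟩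
  intro s hs
  rw [Finset.mem_range] at hs
  apply hZ
  have hs' : (s : ℤ) ≤ m := by omega
  have hs0 : (0 : ℤ) ≤ s := by omega
  obtain rfl | rfl | rfl := fin3_cases i
  · simp only [sh, dir0, Near] at h1 h2 ⊢
    omega
  · simp only [sh, dir1, Near] at h1 h2 ⊢
    omega
  · simp only [sh, dir2, Near] at h1 h2 ⊢
    omega

/-- the point `p + m (a, b)` -/
def off (m : ℕ) (p : Pt) (a b : ℤ) : Pt := (p.1 + m * a, p.2 + m * b)

lemma cls_off (hm : 0 < m) (p : Pt) (a b : ℤ) :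
    cls m (off m p a b) = cls m p + ((a - b : ℤ) : ZMod 3) := by
  have := cls_sh m hm p (a, b)
  simpa [off, sh] using this

/-- The offset `(a, b)` is a corner of the honeycomb near `t`. -/
def Ok (m : ℕ) (v : ℤ × ℤ × ZMod 3) (t p : Pt) (a b : ℤ) : Prop :=
  Near m (off m p a b) t ∧ cls m p + ((a - b : ℤ) : ZMod 3) ≠ v.2.2

/-- `(x, y)` is one of the six unit vectors. -/
def UnitV (x y : ℤ) : Prop :=
  (x = 1 ∧ y = 0) ∨ (x = 0 ∧ y = 1) ∨ (x = 1 ∧ y = -1) ∨
  (x = -1 ∧ y = 0) ∨ (x = 0 ∧ y = -1) ∨ (x = -1 ∧ y = 1)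

instance (x y : ℤ) : Decidable (UnitV x y) := by unfold UnitV; infer_instance

lemma stepOk (hm : 0 < m) (hZ : ∀ q, Near m q t → q ∈ Z) {p : Pt}
    (hp : p.1 % (m : ℤ) = v.1 ∧ p.2 % (m : ℤ) = v.2.1)
    {a b a' b' : ℤ} (h : Ok m v t p a b) (h' : Ok m v t p a' b')
    (hd : UnitV (a' - a) (b' - b)) :
    Rel m Z v (off m p a b) (off m p a' b') := by
  have key : ∀ (i : Fin 3) (a b a' b' : ℤ), Ok m v t p a b → Ok m v t p a' b' →
      a' = a + (dir i).1 → b' = b + (dir i).2 → Rel m Z v (off m p a b) (off m p a' b') := by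
    intro i a b a' b' h h' ha hb
    refine step hZ i ?_ ⟨?_, ?_, ?_⟩ ?_ h.1 h'.1
    · simp only [off, sh, Prod.mk.injEq, ha, hb]
      constructor <;> ring
    · simp [off, hp.1]
    · simp [off, hp.2]
    · rw [cls_off hm]; exact h.2
    · rw [cls_off hm]; exact h'.2
  rcases hd with ⟨h1, h2⟩ | ⟨h1, h2⟩ | ⟨h1, h2⟩ | ⟨h1, h2⟩ | ⟨h1, h2⟩ | ⟨h1, h2⟩
  · exact key 0 a b a' b' h h' (by simp only [dir0]; linarith) (by simp only [dir0]; linarith)
  · exact key 1 a b a' b' h h' (by simp only [dir1]; linarith) (by simp only [dir1]; linarith)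
  · exact key 2 a b a' b' h h' (by simp only [dir2]; linarith) (by simp only [dir2]; linarith)
  · exact (key 0 a' b' a b h' h (by simp only [dir0]; linarith)
      (by simp only [dir0]; linarith)).symm
  · exact (key 1 a' b' a b h' h (by simp only [dir1]; linarith)
      (by simp only [dir1]; linarith)).symm
  · exact (key 2 a' b' a b h' h (by simp only [dir2]; linarith)
      (by simp only [dir2]; linarith)).symm

/-- path with one intermediate corner -/
lemma path1 (hm : 0 < m) (hZ : ∀ q, Near m q t → q ∈ Z) {p : Pt}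
    (hp : p.1 % (m : ℤ) = v.1 ∧ p.2 % (m : ℤ) = v.2.1)
    (a1 b1 a2 b2 a b : ℤ) (h0 : Ok m v t p 0 0) (h : Ok m v t p a b)
    (h1 : Near m (off m p a1 b1) t) (h2 : Near m (off m p a2 b2) t)
    (hc : ∀ x y : ZMod 3, x + ((a1 - b1 : ℤ) : ZMod 3) ≠ y ∨ x + ((a2 - b2 : ℤ) : ZMod 3) ≠ y)
    (d01 : UnitV (a1 - 0) (b1 - 0)) (d02 : UnitV (a2 - 0) (b2 - 0))
    (d1 : UnitV (a - a1) (b - b1)) (d2 : UnitV (a - a2) (b - b2)) :
    Relation.ReflTransGen (Rel m Z v) (off m p 0 0) (off m p a b) := by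
  rcases hc (cls m p) v.2.2 with h3 | h3
  · have h4 : Ok m v t p a1 b1 := ⟨h1, h3⟩
    exact (Relation.ReflTransGen.single (stepOk hm hZ hp h0 h4 d01)).tail
      (stepOk hm hZ hp h4 h d1)
  · have h4 : Ok m v t p a2 b2 := ⟨h2, h3⟩
    exact (Relation.ReflTransGen.single (stepOk hm hZ hp h0 h4 d02)).tail
      (stepOk hm hZ hp h4 h d2)

/-- path with two intermediate corners -/
lemma path2 (hm : 0 < m) (hZ : ∀ q, Near m q t → q ∈ Z) {p : Pt}
    (hp : p.1 % (m : ℤ) = v.1 ∧ p.2 % (m : ℤ) = v.2.1)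
    (a1 b1 a2 b2 a b : ℤ) (h0 : Ok m v t p 0 0) (h : Ok m v t p a b)
    (h1 : Near m (off m p a1 b1) t) (h2 : Near m (off m p a2 b2) t)
    (hc : ∀ x y : ZMod 3, x + ((0 - 0 : ℤ) : ZMod 3) ≠ y → x + ((a - b : ℤ) : ZMod 3) ≠ y →
      x + ((a1 - b1 : ℤ) : ZMod 3) ≠ y ∧ x + ((a2 - b2 : ℤ) : ZMod 3) ≠ y)
    (d01 : UnitV (a1 - 0) (b1 - 0)) (d1 : UnitV (a2 - a1) (b2 - b1))
    (d2 : UnitV (a - a2) (b - b2)) :
    Relation.ReflTransGen (Rel m Z v) (off m p 0 0) (off m p a b) := by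
  obtain ⟨h3, h5⟩ := hc (cls m p) v.2.2 h0.2 h.2
  have h4 : Ok m v t p a1 b1 := ⟨h1, h3⟩
  have h6 : Ok m v t p a2 b2 := ⟨h2, h5⟩
  exact ((Relation.ReflTransGen.single (stepOk hm hZ hp h0 h4 d01)).tail
      (stepOk hm hZ hp h4 h6 d1)).tail (stepOk hm hZ hp h6 h d2)

lemma near_off_iff (p : Pt) (x y : ℤ) : Near m (off m p x y) t ↔
      (-(m : ℤ) ≤ p.1 + m * x - t.1 ∧ p.1 + m * x - t.1 ≤ m) ∧
      (-(m : ℤ) ≤ p.2 + m * y - t.2 ∧ p.2 + m * y - t.2 ≤ m) ∧
      (-(m : ℤ) ≤ (p.1 + m * x - t.1) + (p.2 + m * y - t.2) ∧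
        (p.1 + m * x - t.1) + (p.2 + m * y - t.2) ≤ m) := Iff.rfl

lemma bounds (hm : 0 < m) {p : Pt} {a b : ℤ} (h1 : Near m (off m p 0 0) t)
    (h2 : Near m (off m p a b) t) :
    a ≤ 2 ∧ -2 ≤ a ∧ b ≤ 2 ∧ -2 ≤ b ∧ a + b ≤ 2 ∧ -2 ≤ a + b := by
  have hm' : (0 : ℤ) < m := by exact_mod_cast hm
  rw [near_off_iff] at h1 h2
  have h3 : (m : ℤ) * (a + b) = m * a + m * b := by ring
  refine ⟨?_, ?_, ?_, ?_, ?_, ?_⟩
  · exact le_of_mul_le_mul_left (by omega : (m : ℤ) * a ≤ m * 2) hm'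
  · exact le_of_mul_le_mul_left (by omega : (m : ℤ) * (-2) ≤ m * a) hm'
  · exact le_of_mul_le_mul_left (by omega : (m : ℤ) * b ≤ m * 2) hm'
  · exact le_of_mul_le_mul_left (by omega : (m : ℤ) * (-2) ≤ m * b) hm'
  · exact le_of_mul_le_mul_left (by omega : (m : ℤ) * (a + b) ≤ m * 2) hm'
  · exact le_of_mul_le_mul_left (by omega : (m : ℤ) * (-2) ≤ m * (a + b)) hm'

lemma conn_off (hm : 0 < m) (hZ : ∀ q, Near m q t → q ∈ Z) {p : Pt}
    (hp : p.1 % (m : ℤ) = v.1 ∧ p.2 % (m : ℤ) = v.2.1) {a b : ℤ}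
    (h0 : Ok m v t p 0 0) (h : Ok m v t p a b) :
    Relation.ReflTransGen (Rel m Z v) (off m p 0 0) (off m p a b) := by
  obtain ⟨b1, b2, b3, b4, b5, b6⟩ := bounds hm h0.1 h.1
  have h1 := h0.1
  have h2 := h.1
  rw [near_off_iff] at h1 h2
  interval_cases a <;> interval_cases b <;> try omega
  · exact path2 hm hZ hp (-1) 1 (-2) 1 _ _ h0 h (by rw [near_off_iff]; omega)
      (by rw [near_off_iff]; omega) (by decide) (by decide) (by decide) (by decide)
  · exact path1 hm hZ hp (-1) 0 (-1) 1 _ _ h0 h (by rw [near_off_iff]; omega)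
      (by rw [near_off_iff]; omega) (by decide) (by decide) (by decide) (by decide) (by decide)
  · exact path2 hm hZ hp (-1) 0 (-2) 1 _ _ h0 h (by rw [near_off_iff]; omega)
      (by rw [near_off_iff]; omega) (by decide) (by decide) (by decide) (by decide)
  · exact path1 hm hZ hp (-1) 0 0 (-1) _ _ h0 h (by rw [near_off_iff]; omega)
      (by rw [near_off_iff]; omega) (by decide) (by decide) (by decide) (by decide) (by decide)
  · exact Relation.ReflTransGen.single (stepOk hm hZ hp h0 h (by decide))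
  · exact Relation.ReflTransGen.single (stepOk hm hZ hp h0 h (by decide))
  · exact path1 hm hZ hp 0 1 (-1) 1 _ _ h0 h (by rw [near_off_iff]; omega)
      (by rw [near_off_iff]; omega) (by decide) (by decide) (by decide) (by decide) (by decide)
  · exact path2 hm hZ hp 1 (-1) 1 (-2) _ _ h0 h (by rw [near_off_iff]; omega)
      (by rw [near_off_iff]; omega) (by decide) (by decide) (by decide) (by decide)
  · exact Relation.ReflTransGen.single (stepOk hm hZ hp h0 h (by decide))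
  · exact Relation.ReflTransGen.refl
  · exact Relation.ReflTransGen.single (stepOk hm hZ hp h0 h (by decide))
  · exact path2 hm hZ hp 1 0 1 1 _ _ h0 h (by rw [near_off_iff]; omega)
      (by rw [near_off_iff]; omega) (by decide) (by decide) (by decide) (by decide)
  · exact path1 hm hZ hp 0 (-1) 1 (-1) _ _ h0 h (by rw [near_off_iff]; omega)
      (by rw [near_off_iff]; omega) (by decide) (by decide) (by decide) (by decide) (by decide)
  · exact Relation.ReflTransGen.single (stepOk hm hZ hp h0 h (by decide))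
  · exact Relation.ReflTransGen.single (stepOk hm hZ hp h0 h (by decide))
  · exact path1 hm hZ hp 1 0 0 1 _ _ h0 h (by rw [near_off_iff]; omega)
      (by rw [near_off_iff]; omega) (by decide) (by decide) (by decide) (by decide) (by decide)
  · exact path2 hm hZ hp 1 0 2 (-1) _ _ h0 h (by rw [near_off_iff]; omega)
      (by rw [near_off_iff]; omega) (by decide) (by decide) (by decide) (by decide)
  · exact path1 hm hZ hp 1 0 1 (-1) _ _ h0 h (by rw [near_off_iff]; omega)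
      (by rw [near_off_iff]; omega) (by decide) (by decide) (by decide) (by decide) (by decide)
  · exact path2 hm hZ hp 0 1 1 1 _ _ h0 h (by rw [near_off_iff]; omega)
      (by rw [near_off_iff]; omega) (by decide) (by decide) (by decide) (by decide)

/-- Any two corners near `t` are joined inside the hexagon around `t`. -/
lemma local_conn (hm : 0 < m) (hZ : ∀ q, Near m q t → q ∈ Z) {p q : Pt}
    (hp : p ∈ nodes m Z v) (hq : q ∈ nodes m Z v) (h1 : Near m p t) (h2 : Near m q t) :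
    Relation.ReflTransGen (Rel m Z v) p q := by
  simp only [nodes, Finset.mem_filter] at hp hq
  obtain ⟨_, hp1, hp2, hp3⟩ := hp
  obtain ⟨_, hq1, hq2, hq3⟩ := hq
  have e1 : (m : ℤ) ∣ q.1 - p.1 := by
    have : q.1 % (m : ℤ) = p.1 % (m : ℤ) := by rw [hq1, hp1]
    exact Int.ModEq.dvd this.symm
  have e2 : (m : ℤ) ∣ q.2 - p.2 := by
    have : q.2 % (m : ℤ) = p.2 % (m : ℤ) := by rw [hq2, hp2]
    exact Int.ModEq.dvd this.symm
  obtain ⟨a, ha⟩ := e1
  obtain ⟨b, hb⟩ := e2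
  have hqo : q = off m p a b := by
    ext
    · simp only [off]; linarith
    · simp only [off]; linarith
  have hpo : p = off m p 0 0 := by
    ext <;> simp [off]
  have h0 : Ok m v t p 0 0 := ⟨by rw [← hpo]; exact h1, by simpa using hp3⟩
  have h : Ok m v t p a b := ⟨by rw [← hqo]; exact h2, by rw [← cls_off hm, ← hqo]; exact hq3⟩
  have := conn_off hm hZ ⟨hp1, hp2⟩ h0 h
  rwa [← hqo, ← hpo] at this

end

end Pool.Agent.Lib.MP_0d3a8b_co
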