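import Mathlib
import Pool.Agent.Lib.MP_0d3a8b_co.Local

set_option autoImplicit false

/-!
The perimeter inequality comparing a set of terminals with a connected set containing it.
-/

namespace Pool.Agent.Lib.MP_0d3a8b_co

/-! ### Corners near a point -/

lemma exists_sub_res {m : ℤ} (hm : 0 < m) (x : ℤ) {v : ℤ} (h0 : 0 ≤ v) (h1 : v < m) :
    ∃ r, 0 ≤ r ∧ r < m ∧ (x - r) % m = v := by
  refine ⟨(x - v) % m, Int.emod_nonneg _ hm.ne', Int.emod_lt_of_pos _ hm, ?_⟩
  have h2 : x - (x - v) % m = v + m * ((x - v) / m) := by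
    have := Int.mul_ediv_add_emod (x - v) m
    linarith
  rw [h2, Int.add_mul_emod_self_left, Int.emod_eq_of_lt h0 h1]

lemma exists_add_res {m : ℤ} (hm : 0 < m) (x : ℤ) {v : ℤ} (h0 : 0 ≤ v) (h1 : v < m) :
    ∃ r, 0 ≤ r ∧ r < m ∧ (x + r) % m = v := by
  refine ⟨(v - x) % m, Int.emod_nonneg _ hm.ne', Int.emod_lt_of_pos _ hm, ?_⟩
  have h2 : x + (v - x) % m = v + m * (-((v - x) / m)) := by
    have := Int.mul_ediv_add_emod (v - x) m
    linarith
  rw [h2, Int.add_mul_emod_self_left, Int.emod_eq_of_lt h0 h1]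

lemma link {m : ℕ} (hm : 0 < m) {v : ℤ × ℤ × ZMod 3} (hv : v ∈ idx m) (t : Pt) (i : Fin 3) :
    ∃ p : Pt, (p.1 % (m : ℤ) = v.1 ∧ p.2 % (m : ℤ) = v.2.1 ∧ cls m p ≠ v.2.2) ∧
      Near m p t ∧ Near m p (sh t (dir i) 1) := by
  have hm' : (0 : ℤ) < m := by exact_mod_cast hm
  simp only [idx, Finset.mem_product, Finset.mem_Ico, Finset.mem_univ, and_true] at hv
  obtain ⟨⟨hv1, hv2⟩, hv3, hv4⟩ := hv
  -- two candidates of different colours suffice
  have key : ∀ (P : Pt) (a b a' b' : ℤ), P.1 % (m : ℤ) = v.1 → P.2 % (m : ℤ) = v.2.1 →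
      (∀ x y : ZMod 3, x + ((a - b : ℤ) : ZMod 3) ≠ y ∨ x + ((a' - b' : ℤ) : ZMod 3) ≠ y) →
      (Near m (off m P a b) t ∧ Near m (off m P a b) (sh t (dir i) 1)) →
      (Near m (off m P a' b') t ∧ Near m (off m P a' b') (sh t (dir i) 1)) →
      ∃ p : Pt, (p.1 % (m : ℤ) = v.1 ∧ p.2 % (m : ℤ) = v.2.1 ∧ cls m p ≠ v.2.2) ∧
        Near m p t ∧ Near m p (sh t (dir i) 1) := by
    intro P a b a' b' hP1 hP2 hc h1 h2
    rcases hc (cls m P) v.2.2 with h3 | h3
    · exact ⟨off m P a b, ⟨by simp [off, hP1], by simp [off, hP2], by rwa [cls_off hm]⟩, h1⟩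
    · exact ⟨off m P a' b', ⟨by simp [off, hP1], by simp [off, hP2], by rwa [cls_off hm]⟩, h2⟩
  obtain ⟨r1, hr1, hr1', hr1''⟩ := exists_sub_res hm' t.1 hv1 hv2
  obtain ⟨r2, hr2, hr2', hr2''⟩ := exists_sub_res hm' t.2 hv3 hv4
  obtain ⟨s2, hs2, hs2', hs2''⟩ := exists_add_res hm' t.2 hv3 hv4
  obtain rfl | rfl | rfl := fin3_cases i
  · refine key (t.1 - r1, t.2 - r2) 1 0 0 1 hr1'' hr2'' (by decide) ?_ ?_
    · simp only [off, sh, dir0, Near]; constructor <;> omega
    · simp only [off, sh, dir0, Near]; constructor <;> omega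
  · refine key (t.1 - r1, t.2 - r2) 1 0 0 1 hr1'' hr2'' (by decide) ?_ ?_
    · simp only [off, sh, dir1, Near]; constructor <;> omega
    · simp only [off, sh, dir1, Near]; constructor <;> omega
  · refine key (t.1 - r1, t.2 + s2) 0 0 1 (-1) hr1'' hs2'' (by decide) ?_ ?_
    · simp only [off, sh, dir2, Near]; constructor <;> omega
    · simp only [off, sh, dir2, Near]; constructor <;> omega

/-! ### Balls -/

/-- The points within hexagonal distance `r` of `K`. -/
noncomputable def ball (r : ℕ) (K : Finset Pt) : Finset Pt :=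
  K.biUnion (fun q => (Finset.Icc (q.1 - (r : ℤ)) (q.1 + r) ×ˢ
    Finset.Icc (q.2 - (r : ℤ)) (q.2 + r)).filter (fun p => Near r p q))

lemma mem_ball {r : ℕ} {K : Finset Pt} {p : Pt} : p ∈ ball r K ↔ ∃ k ∈ K, Near r p k := by
  simp only [ball, Finset.mem_biUnion, Finset.mem_filter, Finset.mem_product, Finset.mem_Icc]
  constructor
  · rintro ⟨k, hk, _, h⟩
    exact ⟨k, hk, h⟩
  · rintro ⟨k, hk, h⟩
    refine ⟨k, hk, ?_, h⟩
    unfold Near at h
    omega

lemma ball_mono {r : ℕ} {K K' : Finset Pt} (h : K ⊆ K') : ball r K ⊆ ball r K' := by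
  intro p hp
  rw [mem_ball] at hp ⊢
  obtain ⟨k, hk, h'⟩ := hp
  exact ⟨k, h hk, h'⟩

/-- `T` is connected by unit steps. -/
def Conn (T : Finset Pt) : Prop :=
  ∀ a ∈ T, ∀ b ∈ T, Relation.ReflTransGen (fun x y => x ∈ T ∧ y ∈ T ∧
    ∃ i : Fin 3, y = sh x (dir i) 1 ∨ x = sh y (dir i) 1) a b

lemma global_conn {m : ℕ} (hm : 0 < m) {T : Finset Pt} (hT : Conn T)
    {v : ℤ × ℤ × ZMod 3} (hv : v ∈ idx m) :
    ∀ a ∈ nodes m (ball m T) v, ∀ b ∈ nodes m (ball m T) v,
      Relation.ReflTransGen (Rel m (ball m T) v) a b := by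
  intro p hp q hq
  have hball : ∀ t ∈ T, ∀ q, Near m q t → q ∈ ball m T := fun t ht q h => mem_ball.2 ⟨t, ht, h⟩
  obtain ⟨t, ht, hpt⟩ := mem_ball.1 (Finset.mem_filter.1 hp).1
  obtain ⟨t', ht', hqt'⟩ := mem_ball.1 (Finset.mem_filter.1 hq).1
  have key : ∀ t', Relation.ReflTransGen (fun x y => x ∈ T ∧ y ∈ T ∧
      ∃ i : Fin 3, y = sh x (dir i) 1 ∨ x = sh y (dir i) 1) t t' →
      t' ∈ T ∧ ∀ q ∈ nodes m (ball m T) v, Near m q t' →
        Relation.ReflTransGen (Rel m (ball m T) v) p q := by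
    intro t' h
    induction h with
    | refl => exact ⟨ht, fun q hq hqt => local_conn hm (hball t ht) hp hq hpt hqt⟩
    | @tail b c _ hbc ih =>
      obtain ⟨hb, hc, i, hi⟩ := hbc
      refine ⟨hc, fun q hq hqc => ?_⟩
      have hw : ∃ w : Pt, (w.1 % (m : ℤ) = v.1 ∧ w.2 % (m : ℤ) = v.2.1 ∧ cls m w ≠ v.2.2) ∧
          Near m w b ∧ Near m w c := by
        rcases hi with hi | hi
        · obtain ⟨w, hw, h1, h2⟩ := link hm hv b i
          exact ⟨w, hw, h1, by rw [hi]; exact h2⟩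
        · obtain ⟨w, hw, h1, h2⟩ := link hm hv c i
          exact ⟨w, hw, by rw [hi]; exact h2, h1⟩
      obtain ⟨w, hw, h1, h2⟩ := hw
      have hwn : w ∈ nodes m (ball m T) v := by
        simp only [nodes, Finset.mem_filter]
        exact ⟨hball b hb w h1, hw⟩
      exact (ih.2 w hwn h1).trans (local_conn hm (hball c hc) hwn hq h2 hqc)
  exact (key t' (hT t ht t' ht')).2 q hq hqt'

/-- The honeycomb inequality for balls. -/
theorem honey {ι : Type*} [DecidableEq ι] {m : ℕ} (hm : 0 < m) {X T : Finset Pt}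
    (hXT : X ⊆ T) (hne : T.Nonempty) (hT : Conn T) (l : Pt → ι)
    (hl : ∀ x ∈ X, ∀ y ∈ X, Near (2 * m + 1) x y → l x = l y) :
    2 * ((ball m T).card : ℤ) - 2 * (ball m X).card + 3 * (m * m) * ((X.image l).card - 1) ≤
      ∑ i : Fin 3, ((segs m (ball m T) i).card : ℤ) -
        ∑ i : Fin 3, ((segs m (ball m X) i).card : ℤ) := by
  classical
  let lab : Pt → ι := fun w => if h : ∃ x ∈ X, Near m w x then l h.choose else l w
  have hlab : ∀ w, ∀ x ∈ X, Near m w x → lab w = l x := by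
    intro w x hx hwx
    have h : ∃ x ∈ X, Near m w x := ⟨x, hx, hwx⟩
    have h1 : lab w = l h.choose := dif_pos h
    rw [h1]
    refine hl _ h.choose_spec.1 _ hx ?_
    have h2 := h.choose_spec.2
    unfold Near at *
    omega
  refine coarse_ineq m hm (ball m X) (ball m T) (ball_mono hXT) lab (X.image l) ?_ ?_ ?_ ?_
  · intro p hp i hp'
    obtain ⟨x, hx, hpx⟩ := mem_ball.1 hp
    obtain ⟨y, hy, hpy⟩ := mem_ball.1 hp'
    rw [hlab p x hx hpx, hlab _ y hy hpy]
    refine hl _ hy _ hx ?_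
    obtain rfl | rfl | rfl := fin3_cases i
    · simp only [sh, dir0, Near] at *; omega
    · simp only [sh, dir1, Near] at *; omega
    · simp only [sh, dir2, Near] at *; omega
  · intro c hc v hv
    obtain ⟨x, hx, rfl⟩ := Finset.mem_image.1 hc
    obtain ⟨w, hw, h1, _⟩ := link hm hv x 0
    refine ⟨w, ?_, hlab w x hx h1⟩
    simp only [nodes, Finset.mem_filter]
    exact ⟨mem_ball.2 ⟨x, hx, h1⟩, hw⟩
  · intro v hv
    obtain ⟨t, ht⟩ := hne
    obtain ⟨w, hw, h1, _⟩ := link hm hv t 0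
    refine ⟨w, ?_⟩
    simp only [nodes, Finset.mem_filter]
    exact ⟨mem_ball.2 ⟨t, ht, h1⟩, hw⟩
  · intro v hv
    exact global_conn hm hT hv

/-! ### Runs -/

/-- The number of maximal runs of `Z` in direction `i`. -/
def rn (Z : Finset Pt) (i : Fin 3) : ℕ := (Z.filter (fun p => sh p (dir i) 1 ∉ Z)).card

lemma mem_segs {j : ℕ} {Z : Finset Pt} {i : Fin 3} {p : Pt} :
    p ∈ segs j Z i ↔ p ∈ Z ∧ ∀ s ∈ Finset.range (j + 1), sh p (dir i) (s : ℤ) ∈ Z := by
  unfold segs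
  rw [Finset.mem_filter]
  rfl

lemma sh_inj (d : Pt) (s : ℤ) : Function.Injective (fun p : Pt => sh p d s) := by
  intro p q h
  simp only [sh, Prod.mk.injEq] at h
  ext
  · linarith [h.1]
  · linarith [h.2]

lemma segsA_zero (Z : Finset Pt) (i : Fin 3) : segs 0 Z i = Z := by
  ext p
  rw [mem_segs]
  refine ⟨fun h => h.1, fun hp => ⟨hp, fun s hs => ?_⟩⟩
  have : s = 0 := by simpa using hs
  subst this
  simpa [sh_zero] using hp

lemma segsA_succ_subset (Z : Finset Pt) (i : Fin 3) (j : ℕ) : segs (j + 1) Z i ⊆ segs j Z i := by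
  intro p hp
  rw [mem_segs] at hp ⊢
  exact ⟨hp.1, fun s hs => hp.2 s (by simp at hs ⊢; omega)⟩

lemma segsA_sdiff (Z : Finset Pt) (i : Fin 3) (j : ℕ) :
    (segs j Z i \ segs (j + 1) Z i).card ≤ rn Z i := by
  unfold rn
  refine Finset.card_le_card_of_injOn (fun p => sh p (dir i) j) ?_ ((sh_inj _ _).injOn)
  intro p hp
  rw [Finset.mem_coe, Finset.mem_sdiff, mem_segs, mem_segs] at hp
  simp only [not_and, not_forall] at hp
  obtain ⟨⟨hp1, hp2⟩, hp3⟩ := hp
  obtain ⟨s, hs, hs'⟩ := hp3 hp1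
  have hsj : s = j + 1 := by
    by_contra h
    exact hs' (hp2 s (by simp at hs ⊢; omega))
  subst hsj
  rw [Finset.mem_coe, Finset.mem_filter]
  refine ⟨hp2 j (by simp), ?_⟩
  push_cast at hs'
  rwa [sh_succ] at hs'

lemma card_segsA (Z : Finset Pt) (i : Fin 3) (j : ℕ) :
    Z.card ≤ (segs j Z i).card + j * rn Z i := by
  induction j with
  | zero => simp [segsA_zero]
  | succ j ih =>
    have h1 := segsA_sdiff Z i j
    rw [Finset.card_sdiff_of_subset (segsA_succ_subset Z i j)] at h1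
    have h2 : (j + 1) * rn Z i = j * rn Z i + rn Z i := by ring
    omega

lemma ball_run {m : ℕ} {T : Finset Pt} {i : Fin 3} {q : Pt} (hq : q ∈ ball m T)
    (hq' : sh q (dir i) 1 ∉ ball m T) {s : ℤ} (h0 : 0 ≤ s) (h1 : s ≤ m) :
    sh q (dir i) (-s) ∈ ball m T := by
  obtain ⟨t, ht, h⟩ := mem_ball.1 hq
  have h' : ¬ Near m (sh q (dir i) 1) t := fun h2 => hq' (mem_ball.2 ⟨t, ht, h2⟩)
  rw [mem_ball]
  refine ⟨t, ht, ?_⟩
  obtain rfl | rfl | rfl := fin3_cases i
  · simp only [sh, dir0, Near] at *; omega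
  · simp only [sh, dir1, Near] at *; omega
  · simp only [sh, dir2, Near] at *; omega

lemma sh_sh (p d : Pt) (s r : ℤ) : sh (sh p d s) d r = sh p d (s + r) := by
  simp only [sh, Prod.mk.injEq]
  constructor <;> ring

lemma card_segsA_ball (m : ℕ) (T : Finset Pt) (i : Fin 3) (j : ℕ) (hj : j ≤ m) :
    (segs j (ball m T) i).card + j * rn (ball m T) i ≤ (ball m T).card := by
  induction j with
  | zero => simp [segsA_zero]
  | succ j ih =>
    have ih := ih (by omega)
    have h1 : rn (ball m T) i ≤ (segs j (ball m T) i \ segs (j + 1) (ball m T) i).card := by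
      unfold rn
      refine Finset.card_le_card_of_injOn (fun p => sh p (dir i) (-j)) ?_ ((sh_inj _ _).injOn)
      intro p hp
      rw [Finset.mem_coe, Finset.mem_filter] at hp
      obtain ⟨hp1, hp2⟩ := hp
      rw [Finset.mem_coe, Finset.mem_sdiff, mem_segs, mem_segs]
      simp only [not_and, not_forall]
      refine ⟨⟨ball_run hp1 hp2 (by omega) (by omega), ?_⟩, fun _ => ⟨j + 1, by simp, ?_⟩⟩
      · intro s hs
        rw [Finset.mem_range] at hs
        rw [sh_sh]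
        have := ball_run hp1 hp2 (s := j - s) (by omega) (by omega)
        rwa [show (-(j : ℤ) + s) = -(j - s) by ring]
      · rw [sh_sh]
        have : (-(j : ℤ) + ((j + 1 : ℕ) : ℤ)) = 1 := by push_cast; ring
        rw [this]
        exact hp2
    rw [Finset.card_sdiff_of_subset (segsA_succ_subset _ i j)] at h1
    have h2 : (j + 1) * rn (ball m T) i = j * rn (ball m T) i + rn (ball m T) i := by ring
    have h3 := Finset.card_le_card (segsA_succ_subset (ball m T) i j)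
    omega

/-- The perimeter inequality. -/
theorem perimeter {ι : Type*} [DecidableEq ι] {m : ℕ} (hm : 0 < m) {X T : Finset Pt}
    (hXT : X ⊆ T) (hne : T.Nonempty) (hT : Conn T) (l : Pt → ι)
    (hl : ∀ x ∈ X, ∀ y ∈ X, Near (2 * m + 1) x y → l x = l y) :
    (m : ℤ) * (∑ i : Fin 3, (rn (ball m T) i : ℤ)) + 3 * (m * m) * ((X.image l).card - 1) ≤
      (m : ℤ) * (∑ i : Fin 3, (rn (ball m X) i : ℤ)) + (ball m T).card - (ball m X).card := by
  have h := honey hm hXT hne hT l hl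
  have hT' : ∀ i : Fin 3, ((segs m (ball m T) i).card : ℤ) + m * rn (ball m T) i ≤
      (ball m T).card := by
    intro i
    exact_mod_cast card_segsA_ball m T i m le_rfl
  have hX' : ∀ i : Fin 3, ((ball m X).card : ℤ) ≤
      (segs m (ball m X) i).card + m * rn (ball m X) i := by
    intro i
    exact_mod_cast card_segsA (ball m X) i m
  have a0 := hT' 0
  have a1 := hT' 1
  have a2 := hT' 2
  have b0 := hX' 0
  have b1 := hX' 1
  have b2 := hX' 2
  simp only [Fin.sum_univ_three] at h ⊢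
  linarith

end Pool.Agent.Lib.MP_0d3a8b_co
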