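import Mathlib
import Pool.Agent.Lib.MP_0d3a8b_co.Honey

set_option autoImplicit false

/-!
Growth of the neighbourhoods when the radius increases by one.
-/

namespace Pool.Agent.Lib.MP_0d3a8b_co

/-! ### The terminals -/

/-- Points `p` of `Z` such that `p - (1,0)` and `p - (0,1)` also belong to `Z`. -/
def tri (Z : Finset Pt) : Finset Pt :=
  Z.filter (fun p => sh p (dir 0) (-1) ∈ Z ∧ sh p (dir 1) (-1) ∈ Z)

lemma tri_card_le (Z : Finset Pt) : (tri Z).card ≤ Z.card := Finset.card_filter_le _ _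

lemma sh_neg (p d : Pt) : sh (sh p d 1) d (-1) = p := by
  rw [sh_sh]; simp [sh_zero]

lemma sh_neg' (p d : Pt) : sh (sh p d (-1)) d 1 = p := by
  rw [sh_sh]; simp [sh_zero]

lemma union_card (Z : Finset Pt) :
    (Z ∪ Z.image (fun p => sh p (dir 0) 1) ∪ Z.image (fun p => sh p (dir 1) 1)).card =
      (tri Z).card + ∑ i : Fin 3, rn Z i := by
  classical
  set B := Z.image (fun p => sh p (dir 0) 1) with hB
  set C := Z.image (fun p => sh p (dir 1) 1) with hC
  have memB : ∀ p, p ∈ B ↔ sh p (dir 0) (-1) ∈ Z := by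
    intro p
    rw [hB, Finset.mem_image]
    constructor
    · rintro ⟨q, hq, rfl⟩
      rwa [sh_neg]
    · intro h
      exact ⟨_, h, sh_neg' _ _⟩
  have memC : ∀ p, p ∈ C ↔ sh p (dir 1) (-1) ∈ Z := by
    intro p
    rw [hC, Finset.mem_image]
    constructor
    · rintro ⟨q, hq, rfl⟩
      rwa [sh_neg]
    · intro h
      exact ⟨_, h, sh_neg' _ _⟩
  have hBA : (B \ Z).card = rn Z 0 := by
    unfold rn
    rw [← Finset.card_image_of_injective (Z.filter (fun p => sh p (dir 0) 1 ∉ Z))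
      (sh_inj (dir 0) 1)]
    congr 1
    ext p
    rw [Finset.mem_sdiff, memB, Finset.mem_image]
    constructor
    · rintro ⟨h1, h2⟩
      refine ⟨sh p (dir 0) (-1), ?_, sh_neg' _ _⟩
      rw [Finset.mem_filter, sh_neg']
      exact ⟨h1, h2⟩
    · rintro ⟨q, hq, rfl⟩
      rw [Finset.mem_filter] at hq
      rw [sh_neg]
      exact hq
  have hCA : (C \ Z).card = rn Z 1 := by
    unfold rn
    rw [← Finset.card_image_of_injective (Z.filter (fun p => sh p (dir 1) 1 ∉ Z))
      (sh_inj (dir 1) 1)]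
    congr 1
    ext p
    rw [Finset.mem_sdiff, memC, Finset.mem_image]
    constructor
    · rintro ⟨h1, h2⟩
      refine ⟨sh p (dir 1) (-1), ?_, sh_neg' _ _⟩
      rw [Finset.mem_filter, sh_neg']
      exact ⟨h1, h2⟩
    · rintro ⟨q, hq, rfl⟩
      rw [Finset.mem_filter] at hq
      rw [sh_neg]
      exact hq
  have hCB : (C ∩ B).card + rn Z 2 = Z.card := by
    have h1 : (C ∩ B).card = (Z.filter (fun p => sh p (dir 2) 1 ∈ Z)).card := by
      rw [← Finset.card_image_of_injective (Z.filter (fun p => sh p (dir 2) 1 ∈ Z))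
        (sh_inj (dir 0) 1)]
      congr 1
      ext p
      rw [Finset.mem_inter, memB, memC, Finset.mem_image]
      have e : ∀ q : Pt, sh (sh q (dir 0) 1) (dir 1) (-1) = sh q (dir 2) 1 := by
        intro q
        simp [sh, dir0, dir1, dir2]
      constructor
      · rintro ⟨h1, h2⟩
        refine ⟨sh p (dir 0) (-1), ?_, sh_neg' _ _⟩
        rw [Finset.mem_filter, ← e, sh_neg']
        exact ⟨h2, h1⟩
      · rintro ⟨q, hq, rfl⟩
        rw [Finset.mem_filter] at hq
        rw [sh_neg, e]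
        exact ⟨hq.2, hq.1⟩
    rw [h1]
    unfold rn
    rw [Finset.card_filter_add_card_filter_not]
  have htri : C ∩ B ∩ Z = tri Z := by
    ext p
    rw [Finset.mem_inter, Finset.mem_inter, memB, memC, tri, Finset.mem_filter]
    tauto
  have e1 : (Z ∪ B ∪ C).card = Z.card + (B \ Z).card + (C \ (Z ∪ B)).card := by
    rw [← Finset.card_union_of_disjoint Finset.disjoint_sdiff, Finset.union_sdiff_self_eq_union,
      ← Finset.card_union_of_disjoint Finset.disjoint_sdiff, Finset.union_sdiff_self_eq_union]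
  have e2 : (C \ Z).card = (C \ (Z ∪ B)).card + ((C ∩ B) \ Z).card := by
    rw [← Finset.card_union_of_disjoint]
    · congr 1
      ext p
      simp only [Finset.mem_sdiff, Finset.mem_union, Finset.mem_inter]
      tauto
    · rw [Finset.disjoint_left]
      intro p hp hp'
      simp only [Finset.mem_sdiff, Finset.mem_union, Finset.mem_inter] at hp hp'
      tauto
  have e3 : (C ∩ B).card = ((C ∩ B) \ Z).card + (C ∩ B ∩ Z).card := by
    rw [← Finset.card_union_of_disjoint]
    · rw [Finset.sdiff_union_inter]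
    · exact Finset.disjoint_sdiff_inter _ _
  rw [htri] at e3
  rw [Fin.sum_univ_three]
  omega

lemma near_succ {r : ℕ} {p k : Pt} (h : Near r p k) : Near ((r + 1 : ℕ) : ℤ) p k := by
  unfold Near at *
  push_cast
  omega

/-- The terminals gain at least the perimeter. -/
lemma tri_growth (r : ℕ) (X : Finset Pt) :
    (tri (ball r X)).card + ∑ i : Fin 3, rn (ball r X) i ≤ (tri (ball (r + 1) X)).card := by
  classical
  rw [← union_card]
  apply Finset.card_le_card
  intro p hp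
  have h : p ∈ ball r X ∨ sh p (dir 0) (-1) ∈ ball r X ∨ sh p (dir 1) (-1) ∈ ball r X := by
    rw [Finset.mem_union, Finset.mem_union, Finset.mem_image, Finset.mem_image] at hp
    rcases hp with (hp | ⟨q, hq, rfl⟩) | ⟨q, hq, rfl⟩
    · left; exact hp
    · right; left; rwa [sh_neg]
    · right; right; rwa [sh_neg]
  simp only [tri, Finset.mem_filter, mem_ball]
  rcases h with h | h | h
  · obtain ⟨k, hk, h⟩ := mem_ball.1 h
    refine ⟨⟨k, hk, near_succ h⟩, ⟨k, hk, ?_⟩, ⟨k, hk, ?_⟩⟩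
    · simp only [sh, dir0, Near] at h ⊢; push_cast; omega
    · simp only [sh, dir1, Near] at h ⊢; push_cast; omega
  · obtain ⟨k, hk, h⟩ := mem_ball.1 h
    refine ⟨⟨k, hk, ?_⟩, ⟨k, hk, ?_⟩, ⟨k, hk, ?_⟩⟩
    · simp only [sh, dir0, Near] at h ⊢; push_cast; omega
    · simp only [sh, dir0, Near] at h ⊢; push_cast; omega
    · simp only [sh, dir0, dir1, Near] at h ⊢; push_cast; omega
  · obtain ⟨k, hk, h⟩ := mem_ball.1 h
    refine ⟨⟨k, hk, ?_⟩, ⟨k, hk, ?_⟩, ⟨k, hk, ?_⟩⟩
    · simp only [sh, dir1, Near] at h ⊢; push_cast; omega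
    · simp only [sh, dir0, dir1, Near] at h ⊢; push_cast; omega
    · simp only [sh, dir1, Near] at h ⊢; push_cast; omega

/-! ### The network -/

lemma rn_neg (Z : Finset Pt) (i : Fin 3) :
    (Z.filter (fun p => sh p (dir i) (-1) ∉ Z)).card = rn Z i := by
  classical
  unfold rn
  have h1 := Finset.card_filter_add_card_filter_not (s := Z) (fun p => sh p (dir i) (-1) ∈ Z)
  have h2 := Finset.card_filter_add_card_filter_not (s := Z) (fun p => sh p (dir i) 1 ∈ Z)
  have h3 : (Z.filter (fun p => sh p (dir i) (-1) ∈ Z)).card =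
      (Z.filter (fun p => sh p (dir i) 1 ∈ Z)).card := by
    rw [← Finset.card_image_of_injective (Z.filter (fun p => sh p (dir i) (-1) ∈ Z))
      (sh_inj (dir i) (-1))]
    congr 1
    ext p
    rw [Finset.mem_image, Finset.mem_filter]
    constructor
    · rintro ⟨q, hq, rfl⟩
      rw [Finset.mem_filter] at hq
      rw [sh_neg']
      exact ⟨hq.2, hq.1⟩
    · rintro ⟨h1, h2⟩
      refine ⟨sh p (dir i) 1, ?_, sh_neg _ _⟩
      rw [Finset.mem_filter, sh_neg]
      exact ⟨h2, h1⟩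
  omega

/-- The number of neighbours of `q` in `Z`. -/
def nb (Z : Finset Pt) (q : Pt) : ℕ :=
  ∑ i : Fin 3, ((if sh q (dir i) 1 ∈ Z then 1 else 0) + (if sh q (dir i) (-1) ∈ Z then 1 else 0))

lemma sum_nb_le (Z N : Finset Pt) (hN : ∀ q ∈ N, q ∉ Z) :
    ∑ q ∈ N, nb Z q ≤ 2 * ∑ i : Fin 3, rn Z i := by
  classical
  unfold nb
  rw [Finset.sum_comm, Finset.mul_sum]
  refine Finset.sum_le_sum fun i _ => ?_
  rw [Finset.sum_add_distrib, ← Finset.card_filter, ← Finset.card_filter]
  have h1 : (N.filter (fun q => sh q (dir i) 1 ∈ Z)).card ≤ rn Z i := by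
    rw [← rn_neg]
    refine Finset.card_le_card_of_injOn (fun p => sh p (dir i) 1) ?_ ((sh_inj _ _).injOn)
    intro q hq
    rw [Finset.mem_coe, Finset.mem_filter] at hq ⊢
    rw [sh_neg]
    exact ⟨hq.2, hN q hq.1⟩
  have h2 : (N.filter (fun q => sh q (dir i) (-1) ∈ Z)).card ≤ rn Z i := by
    unfold rn
    refine Finset.card_le_card_of_injOn (fun p => sh p (dir i) (-1)) ?_ ((sh_inj _ _).injOn)
    intro q hq
    rw [Finset.mem_coe, Finset.mem_filter] at hq ⊢
    rw [sh_neg']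
    exact ⟨hq.2, hN q hq.1⟩
  omega

/-- Two consecutive neighbours in `Z`. -/
def Two (Z : Finset Pt) (q : Pt) : Prop :=
  ((q.1 + 1, q.2) ∈ Z ∧ (q.1, q.2 + 1) ∈ Z) ∨ ((q.1, q.2 + 1) ∈ Z ∧ (q.1 - 1, q.2 + 1) ∈ Z) ∨
  ((q.1 - 1, q.2 + 1) ∈ Z ∧ (q.1 - 1, q.2) ∈ Z) ∨ ((q.1 - 1, q.2) ∈ Z ∧ (q.1, q.2 - 1) ∈ Z) ∨
  ((q.1, q.2 - 1) ∈ Z ∧ (q.1 + 1, q.2 - 1) ∈ Z) ∨ ((q.1 + 1, q.2 - 1) ∈ Z ∧ (q.1 + 1, q.2) ∈ Z)

lemma two_le_nb {Z : Finset Pt} {q : Pt} (h : Two Z q) : 2 ≤ nb Z q := by
  have e1 : sh q (dir 0) 1 = (q.1 + 1, q.2) := by simp [sh, dir0]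
  have e2 : sh q (dir 0) (-1) = (q.1 - 1, q.2) := by simp [sh, dir0, sub_eq_add_neg]
  have e3 : sh q (dir 1) 1 = (q.1, q.2 + 1) := by simp [sh, dir1]
  have e4 : sh q (dir 1) (-1) = (q.1, q.2 - 1) := by simp [sh, dir1, sub_eq_add_neg]
  have e5 : sh q (dir 2) 1 = (q.1 + 1, q.2 - 1) := by simp [sh, dir2, sub_eq_add_neg]
  have e6 : sh q (dir 2) (-1) = (q.1 - 1, q.2 + 1) := by simp [sh, dir2, sub_eq_add_neg]
  unfold nb
  rw [Fin.sum_univ_three, e1, e2, e3, e4, e5, e6]
  rcases h with ⟨h1, h2⟩ | ⟨h1, h2⟩ | ⟨h1, h2⟩ | ⟨h1, h2⟩ | ⟨h1, h2⟩ | ⟨h1, h2⟩ <;>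
  · rw [if_pos h1, if_pos h2]
    omega

lemma corner_case {r : ℕ} {T S : Finset Pt}
    (hS : ∀ t ∈ T, t ∈ S ∨ ∃ i, sh t (dir i) 1 ∈ T ∧ sh t (dir i) (-1) ∈ T) {q : Pt}
    (hnot : ∀ t' ∈ T, ¬ Near r q t') {t : Pt} (ht : t ∈ T)
    (hc : (q.1 - t.1 = r + 1 ∧ q.2 - t.2 = 0) ∨ (q.1 - t.1 = 0 ∧ q.2 - t.2 = r + 1) ∨
      (q.1 - t.1 = -(r + 1) ∧ q.2 - t.2 = r + 1) ∨
      (q.1 - t.1 = -(r + 1) ∧ q.2 - t.2 = 0) ∨ (q.1 - t.1 = 0 ∧ q.2 - t.2 = -(r + 1)) ∨
      (q.1 - t.1 = r + 1 ∧ q.2 - t.2 = -(r + 1))) :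
    Two (ball r T) q ∨ ∃ s ∈ S, ∃ i : Fin 3, q = sh s (dir i) (r + 1) ∨
      q = sh s (dir i) (-(r + 1)) := by
  have mem : ∀ t' ∈ T, ∀ x, Near r x t' → x ∈ ball r T :=
    fun t' ht' x h' => mem_ball.2 ⟨t', ht', h'⟩
  rcases hS t ht with hts | ⟨i, hi1, hi2⟩
  · right
    refine ⟨t, hts, ?_⟩
    rcases hc with hc | hc | hc | hc | hc | hc
    · exact ⟨0, Or.inl (by ext <;> simp only [sh, dir0] <;> linarith)⟩
    · exact ⟨1, Or.inl (by ext <;> simp only [sh, dir1] <;> linarith)⟩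
    · exact ⟨2, Or.inr (by ext <;> simp only [sh, dir2] <;> linarith)⟩
    · exact ⟨0, Or.inr (by ext <;> simp only [sh, dir0] <;> linarith)⟩
    · exact ⟨1, Or.inr (by ext <;> simp only [sh, dir1] <;> linarith)⟩
    · exact ⟨2, Or.inl (by ext <;> simp only [sh, dir2] <;> linarith)⟩
  · left
    have n1 := hnot _ hi1
    have n2 := hnot _ hi2
    have m1 := mem _ hi1
    have m2 := mem _ hi2
    have m0 := mem t ht
    clear hnot hS hi1 hi2 mem
    obtain rfl | rfl | rfl := fin3_cases i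
    · simp only [sh, dir0, Near] at n1 n2 m1 m2 m0
      rcases hc with hc | hc | hc | hc | hc | hc
      · exfalso; clear m1 m2 m0; omega
      · exact (Or.inr (Or.inr (Or.inr (Or.inr (Or.inl ⟨m0 _ (by clear n1 n2; simp only; omega),
          m1 _ (by clear n1 n2; simp only; omega)⟩)))))
      · exact (Or.inr (Or.inr (Or.inr (Or.inr (Or.inl ⟨m2 _ (by clear n1 n2; simp only; omega),
          m0 _ (by clear n1 n2; simp only; omega)⟩)))))
      · exfalso; clear m1 m2 m0; omega
      · exact (Or.inr (Or.inl ⟨m0 _ (by clear n1 n2; simp only; omega),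
          m2 _ (by clear n1 n2; simp only; omega)⟩))
      · exact (Or.inr (Or.inl ⟨m1 _ (by clear n1 n2; simp only; omega),
          m0 _ (by clear n1 n2; simp only; omega)⟩))
    · simp only [sh, dir1, Near] at n1 n2 m1 m2 m0
      rcases hc with hc | hc | hc | hc | hc | hc
      · exact (Or.inr (Or.inr (Or.inl ⟨m1 _ (by clear n1 n2; simp only; omega),
          m0 _ (by clear n1 n2; simp only; omega)⟩)))
      · exfalso; clear m1 m2 m0; omega
      · exact (Or.inr (Or.inr (Or.inr (Or.inr (Or.inr ⟨m0 _ (by clear n1 n2; simp only; omega),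
          m1 _ (by clear n1 n2; simp only; omega)⟩)))))
      · exact (Or.inr (Or.inr (Or.inr (Or.inr (Or.inr ⟨m2 _ (by clear n1 n2; simp only; omega),
          m0 _ (by clear n1 n2; simp only; omega)⟩)))))
      · exfalso; clear m1 m2 m0; omega
      · exact (Or.inr (Or.inr (Or.inl ⟨m0 _ (by clear n1 n2; simp only; omega),
          m2 _ (by clear n1 n2; simp only; omega)⟩)))
    · simp only [sh, dir2, Near] at n1 n2 m1 m2 m0
      rcases hc with hc | hc | hc | hc | hc | hc
      · exact (Or.inr (Or.inr (Or.inr (Or.inl ⟨m0 _ (by clear n1 n2; simp only; omega),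
          m1 _ (by clear n1 n2; simp only; omega)⟩))))
      · exact (Or.inr (Or.inr (Or.inr (Or.inl ⟨m2 _ (by clear n1 n2; simp only; omega),
          m0 _ (by clear n1 n2; simp only; omega)⟩))))
      · exfalso; clear m1 m2 m0; omega
      · exact (Or.inl ⟨m0 _ (by clear n1 n2; simp only; omega),
          m2 _ (by clear n1 n2; simp only; omega)⟩)
      · exact (Or.inl ⟨m1 _ (by clear n1 n2; simp only; omega),
          m0 _ (by clear n1 n2; simp only; omega)⟩)
      · exfalso; clear m1 m2 m0; omega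

lemma two_or_exc {r : ℕ} {T S : Finset Pt}
    (hS : ∀ t ∈ T, t ∈ S ∨ ∃ i, sh t (dir i) 1 ∈ T ∧ sh t (dir i) (-1) ∈ T) {q : Pt}
    (hq : q ∉ ball r T) {t : Pt} (ht : t ∈ T) (h : Near (r + 1) q t) :
    Two (ball r T) q ∨ ∃ s ∈ S, ∃ i : Fin 3, q = sh s (dir i) (r + 1) ∨
      q = sh s (dir i) (-(r + 1)) := by
  have hnot : ∀ t' ∈ T, ¬ Near r q t' := fun t' ht' h' => hq (mem_ball.2 ⟨t', ht', h'⟩)
  have m0 : ∀ x, Near r x t → x ∈ ball r T := fun x h' => mem_ball.2 ⟨t, ht, h'⟩
  have h0 := hnot t ht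
  have cc := corner_case hS hnot ht
  clear hnot hS hq
  unfold Near at h h0 m0
  have h0' : (r : ℤ) + 1 ≤ q.1 - t.1 ∨ (r : ℤ) + 1 ≤ q.2 - t.2 ∨
      (r : ℤ) + 1 ≤ (q.1 - t.1) + (q.2 - t.2) ∨ q.1 - t.1 ≤ -(r + 1) ∨ q.2 - t.2 ≤ -(r + 1) ∨
      (q.1 - t.1) + (q.2 - t.2) ≤ -(r + 1) := by
    clear cc m0
    omega
  clear h0
  rcases h0' with h1 | h1 | h1 | h1 | h1 | h1
  · rcases lt_or_ge (q.2 - t.2) 0 with h2 | h2
    · rcases lt_or_ge (-((r : ℤ) + 1)) (q.2 - t.2) with h3 | h3
      · exact Or.inl (Or.inr (Or.inr (Or.inl ⟨m0 _ (by clear cc; simp only; omega),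
          m0 _ (by clear cc; simp only; omega)⟩)))
      · exact cc (Or.inr (Or.inr (Or.inr (Or.inr (Or.inr (by clear cc m0; omega))))))
    · exact cc (Or.inl (by clear cc m0; omega))
  · rcases lt_or_ge (q.1 - t.1) 0 with h2 | h2
    · rcases lt_or_ge (-((r : ℤ) + 1)) (q.1 - t.1) with h3 | h3
      · exact Or.inl (Or.inr (Or.inr (Or.inr (Or.inr (Or.inl
          ⟨m0 _ (by clear cc; simp only; omega), m0 _ (by clear cc; simp only; omega)⟩)))))
      · exact cc (Or.inr (Or.inr (Or.inl (by clear cc m0; omega))))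
    · exact cc (Or.inr (Or.inl (by clear cc m0; omega)))
  · rcases lt_or_ge 0 (q.1 - t.1) with h2 | h2
    · rcases lt_or_ge (q.1 - t.1) ((r : ℤ) + 1) with h3 | h3
      · exact Or.inl (Or.inr (Or.inr (Or.inr (Or.inl
          ⟨m0 _ (by clear cc; simp only; omega), m0 _ (by clear cc; simp only; omega)⟩))))
      · exact cc (Or.inl (by clear cc m0; omega))
    · exact cc (Or.inr (Or.inl (by clear cc m0; omega)))
  · rcases lt_or_ge 0 (q.2 - t.2) with h2 | h2
    · rcases lt_or_ge (q.2 - t.2) ((r : ℤ) + 1) with h3 | h3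
      · exact Or.inl (Or.inr (Or.inr (Or.inr (Or.inr (Or.inr
          ⟨m0 _ (by clear cc; simp only; omega), m0 _ (by clear cc; simp only; omega)⟩)))))
      · exact cc (Or.inr (Or.inr (Or.inl (by clear cc m0; omega))))
    · exact cc (Or.inr (Or.inr (Or.inr (Or.inl (by clear cc m0; omega)))))
  · rcases lt_or_ge 0 (q.1 - t.1) with h2 | h2
    · rcases lt_or_ge (q.1 - t.1) ((r : ℤ) + 1) with h3 | h3
      · exact Or.inl (Or.inr (Or.inl
          ⟨m0 _ (by clear cc; simp only; omega), m0 _ (by clear cc; simp only; omega)⟩))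
      · exact cc (Or.inr (Or.inr (Or.inr (Or.inr (Or.inr (by clear cc m0; omega))))))
    · exact cc (Or.inr (Or.inr (Or.inr (Or.inr (Or.inl (by clear cc m0; omega))))))
  · rcases lt_or_ge (q.1 - t.1) 0 with h2 | h2
    · rcases lt_or_ge (-((r : ℤ) + 1)) (q.1 - t.1) with h3 | h3
      · exact Or.inl (Or.inl
          ⟨m0 _ (by clear cc; simp only; omega), m0 _ (by clear cc; simp only; omega)⟩)
      · exact cc (Or.inr (Or.inr (Or.inr (Or.inl (by clear cc m0; omega)))))
    · exact cc (Or.inr (Or.inr (Or.inr (Or.inr (Or.inl (by clear cc m0; omega))))))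

/-- The network gains at most the perimeter, up to a bounded error. -/
lemma ball_growth {r : ℕ} {T S : Finset Pt}
    (hS : ∀ t ∈ T, t ∈ S ∨ ∃ i, sh t (dir i) 1 ∈ T ∧ sh t (dir i) (-1) ∈ T) :
    (ball (r + 1) T).card ≤ (ball r T).card + ∑ i : Fin 3, rn (ball r T) i + 6 * S.card := by
  classical
  let Exc : Finset Pt := (S ×ˢ (Finset.univ : Finset (Fin 3))).biUnion
    (fun x => {sh x.1 (dir x.2) (r + 1), sh x.1 (dir x.2) (-(r + 1))})
  have hExc : Exc.card ≤ 6 * S.card := by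
    refine Finset.card_biUnion_le.trans ?_
    have : ∀ x ∈ (S ×ˢ (Finset.univ : Finset (Fin 3))),
        ({sh x.1 (dir x.2) (r + 1), sh x.1 (dir x.2) (-(r + 1))} : Finset Pt).card ≤ 2 :=
      fun x _ => Finset.card_le_two
    refine (Finset.sum_le_sum this).trans ?_
    rw [Finset.sum_const, Finset.card_product, Finset.card_univ, Fintype.card_fin, smul_eq_mul]
    omega
  have hN : ∀ q ∈ (ball (r + 1) T \ ball r T) \ Exc, 2 ≤ nb (ball r T) q := by
    intro q hq
    rw [Finset.mem_sdiff, Finset.mem_sdiff] at hq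
    obtain ⟨⟨h1, h2⟩, h3⟩ := hq
    obtain ⟨t, ht, h⟩ := mem_ball.1 h1
    push_cast at h
    rcases two_or_exc hS h2 ht h with h4 | ⟨s, hs, i, hi⟩
    · exact two_le_nb h4
    · exfalso
      apply h3
      rw [Finset.mem_biUnion]
      refine ⟨(s, i), by simp [hs], ?_⟩
      rw [Finset.mem_insert, Finset.mem_singleton]
      exact hi
  have h1 := sum_nb_le (ball r T) ((ball (r + 1) T \ ball r T) \ Exc) (by
    intro q hq
    rw [Finset.mem_sdiff, Finset.mem_sdiff] at hq
    exact hq.1.2)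
  have h2 := Finset.sum_le_sum hN
  rw [Finset.sum_const, smul_eq_mul] at h2
  have h3 : ball r T ⊆ ball (r + 1) T := by
    intro p hp
    obtain ⟨k, hk, h⟩ := mem_ball.1 hp
    exact mem_ball.2 ⟨k, hk, near_succ h⟩
  have h4 := Finset.card_sdiff_of_subset h3
  have h5 := Finset.card_le_card h3
  have h6 : (ball (r + 1) T \ ball r T).card ≤
      ((ball (r + 1) T \ ball r T) \ Exc).card + Exc.card := by
    exact Finset.card_le_card_sdiff_add_card (t := Exc) (s := ball (r + 1) T \ ball r T)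
  omega

/-! ### A crude bound for a segment -/

/-- The segment of length `k` in direction `i` starting at `p`. -/
def seg (p : Pt) (i : Fin 3) (k : ℕ) : Finset Pt :=
  (Finset.range (k + 1)).image (fun s : ℕ => sh p (dir i) s)

lemma ball_step (r : ℕ) (p : Pt) (i : Fin 3) :
    (ball r {sh p (dir i) 1} \ ball r {p}).card ≤ 2 * r + 1 := by
  classical
  have key : ∀ f : Pt → ℤ, (∀ q ∈ ball r {sh p (dir i) 1}, f p - r ≤ f q ∧ f q ≤ f p + r) →
      (∀ q ∈ ball r {sh p (dir i) 1} \ ball r {p}, ∀ q' ∈ ball r {sh p (dir i) 1} \ ball r {p},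
        f q = f q' → q = q') →
      (ball r {sh p (dir i) 1} \ ball r {p}).card ≤ 2 * r + 1 := by
    intro f h1 h2
    have h3 : (ball r {sh p (dir i) 1} \ ball r {p}).card ≤
        (Finset.Icc (f p - r) (f p + r)).card := by
      refine Finset.card_le_card_of_injOn f ?_ ?_
      · intro q hq
        rw [Finset.mem_coe, Finset.mem_sdiff] at hq
        rw [Finset.mem_coe, Finset.mem_Icc]
        exact h1 q hq.1
      · intro q hq q' hq' h
        exact h2 q hq q' hq' h
    rw [Int.card_Icc] at h3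
    omega
  have hm : ∀ (q x : Pt), q ∈ ball r {x} ↔ Near r q x := by
    intro q x
    rw [mem_ball]
    simp
  obtain rfl | rfl | rfl := fin3_cases i
  · refine key (fun q => q.2) ?_ ?_
    · intro q hq
      rw [hm] at hq
      simp only [sh, dir0, Near] at hq
      omega
    · intro q hq q' hq' h
      rw [Finset.mem_sdiff, hm, hm] at hq hq'
      simp only [sh, dir0, Near] at hq hq' h
      ext
      · omega
      · exact h
  · refine key (fun q => q.1) ?_ ?_
    · intro q hq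
      rw [hm] at hq
      simp only [sh, dir1, Near] at hq
      omega
    · intro q hq q' hq' h
      rw [Finset.mem_sdiff, hm, hm] at hq hq'
      simp only [sh, dir1, Near] at hq hq' h
      ext
      · exact h
      · omega
  · refine key (fun q => q.1 + q.2) ?_ ?_
    · intro q hq
      rw [hm] at hq
      simp only [sh, dir2, Near] at hq
      omega
    · intro q hq q' hq' h
      rw [Finset.mem_sdiff, hm, hm] at hq hq'
      simp only [sh, dir2, Near] at hq hq' h
      ext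
      · omega
      · omega

lemma ball_union (r : ℕ) (K K' : Finset Pt) : ball r (K ∪ K') = ball r K ∪ ball r K' := by
  ext p
  simp only [mem_ball, Finset.mem_union]
  constructor
  · rintro ⟨k, hk | hk, h⟩
    · exact Or.inl ⟨k, hk, h⟩
    · exact Or.inr ⟨k, hk, h⟩
  · rintro (⟨k, hk, h⟩ | ⟨k, hk, h⟩)
    · exact ⟨k, Or.inl hk, h⟩
    · exact ⟨k, Or.inr hk, h⟩

lemma seg_succ (p : Pt) (i : Fin 3) (k : ℕ) :
    seg p i (k + 1) = seg p i k ∪ {sh p (dir i) ((k + 1 : ℕ) : ℤ)} := by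
  unfold seg
  rw [Finset.range_add_one, Finset.image_insert, Finset.union_comm, ← Finset.insert_eq]

lemma ball_seg (r : ℕ) (p : Pt) (i : Fin 3) (k : ℕ) :
    (ball r (seg p i k)).card ≤ (2 * r + 1) * (2 * r + 1) + k * (2 * r + 1) := by
  induction k with
  | zero =>
    have h1 : seg p i 0 = {p} := by
      unfold seg
      simp [sh_zero]
    rw [h1]
    have h2 : ball r {p} ⊆ Finset.Icc (p.1 - (r : ℤ)) (p.1 + r) ×ˢ
        Finset.Icc (p.2 - (r : ℤ)) (p.2 + r) := by
      intro q hq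
      rw [mem_ball] at hq
      obtain ⟨k, hk, h⟩ := hq
      rw [Finset.mem_singleton] at hk
      subst hk
      rw [Finset.mem_product, Finset.mem_Icc, Finset.mem_Icc]
      unfold Near at h
      omega
    have h3 := Finset.card_le_card h2
    rw [Finset.card_product, Int.card_Icc, Int.card_Icc] at h3
    have h4 : (p.1 + (r : ℤ) + 1 - (p.1 - r)).toNat = 2 * r + 1 := by omega
    have h5 : (p.2 + (r : ℤ) + 1 - (p.2 - r)).toNat = 2 * r + 1 := by omega
    rw [h4, h5] at h3
    omega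
  | succ k ih =>
    rw [seg_succ, ball_union]
    have h1 : (ball r (seg p i k) ∪ ball r {sh p (dir i) ((k + 1 : ℕ) : ℤ)}).card ≤
        (ball r (seg p i k)).card +
          (ball r {sh (sh p (dir i) k) (dir i) 1} \ ball r {sh p (dir i) k}).card := by
      have e : sh p (dir i) ((k + 1 : ℕ) : ℤ) = sh (sh p (dir i) k) (dir i) 1 := by
        push_cast; exact sh_succ _ _ _
      rw [e]
      have h2 : ball r (seg p i k) ∪ ball r {sh (sh p (dir i) k) (dir i) 1} ⊆
          ball r (seg p i k) ∪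
            (ball r {sh (sh p (dir i) k) (dir i) 1} \ ball r {sh p (dir i) k}) := by
        intro q hq
        rw [Finset.mem_union] at hq ⊢
        rcases hq with hq | hq
        · exact Or.inl hq
        · by_cases h3 : q ∈ ball r {sh p (dir i) (k : ℤ)}
          · left
            refine ball_mono ?_ h3
            rw [Finset.singleton_subset_iff]
            unfold seg
            rw [Finset.mem_image]
            exact ⟨k, by simp, rfl⟩
          · right
            rw [Finset.mem_sdiff]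
            exact ⟨hq, h3⟩
      exact (Finset.card_le_card h2).trans (Finset.card_union_le _ _)
    have h2 := ball_step r (sh p (dir i) k) i
    have h3 : (k + 1) * (2 * r + 1) = k * (2 * r + 1) + (2 * r + 1) := by ring
    omega

end Pool.Agent.Lib.MP_0d3a8b_co
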