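import Mathlib

set_option autoImplicit false

/-!
The weight of a minimum spanning tree is at most the sum, over all thresholds `t`, of the number
of components of the threshold graph minus one (Kruskal).
-/

namespace Pool.Agent.Lib.MP_0d3a8b_co

open SimpleGraph

/-- Every finite graph has at least `|V| - c` edges, `c` the number of components. -/
lemma card_le_edges_add_comp {V : Type*} [Finite V] (H : SimpleGraph V) :
    Nat.card V ≤ H.edgeSet.ncard + Nat.card H.ConnectedComponent := by
  classical
  rcases isEmpty_or_nonempty V with hV | hV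
  · simp
  obtain ⟨v0⟩ := hV
  let C0 : H.ConnectedComponent := H.connectedComponentMk v0
  let r : H.ConnectedComponent → V := fun C => Quot.out C
  have hr : ∀ C, H.connectedComponentMk (r C) = C := fun C => Quot.out_eq C
  let S : Set (Sym2 V) := (fun C => s(r C0, r C)) '' {C | C ≠ C0}
  let H' : SimpleGraph V := H ⊔ fromEdgeSet S
  have hle : H ≤ H' := le_sup_left
  have hconn : H'.Connected := by
    have h1 : ∀ v, H'.Reachable (r C0) v := by
      intro v
      have h2 : H'.Reachable (r (H.connectedComponentMk v)) v :=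
        (ConnectedComponent.exact (hr (H.connectedComponentMk v))).mono hle
      by_cases h3 : H.connectedComponentMk v = C0
      · rw [h3] at h2; exact h2
      · refine Reachable.trans ?_ h2
        apply Adj.reachable
        right
        rw [fromEdgeSet_adj]
        refine ⟨⟨_, h3, rfl⟩, ?_⟩
        intro h4
        apply h3
        rw [← hr (H.connectedComponentMk v), ← h4, hr]
    have : Nonempty V := ⟨v0⟩
    exact ⟨fun a b => (h1 a).symm.trans (h1 b)⟩
  have h1 := hconn.card_vert_le_card_edgeSet_add_one
  have h2 : H'.edgeSet ⊆ H.edgeSet ∪ S := by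
    intro e he
    simp only [H', edgeSet_sup, edgeSet_fromEdgeSet] at he
    rcases he with he | he
    · exact Or.inl he
    · exact Or.inr he.1
  have h3 : Nat.card H'.edgeSet ≤ H.edgeSet.ncard + S.ncard := by
    have h4 : Nat.card H'.edgeSet = H'.edgeSet.ncard := rfl
    rw [h4]
    exact (Set.ncard_le_ncard h2 (Set.toFinite _)).trans (Set.ncard_union_le _ _)
  have h5 : S.ncard ≤ ({C | C ≠ C0} : Set H.ConnectedComponent).ncard :=
    Set.ncard_image_le (Set.toFinite _)
  have h6 : ({C | C ≠ C0} : Set H.ConnectedComponent).ncard + 1 =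
      Nat.card H.ConnectedComponent := by
    have h7 : ({C | C ≠ C0} : Set H.ConnectedComponent) = Set.univ \ {C0} := by
      ext C; simp
    rw [h7, Set.ncard_sdiff_singleton_add_one (Set.mem_univ _) (Set.toFinite _), Set.ncard_univ]
  omega

/-- The graph of the pairs of weight at most `t`. -/
def thr {V : Type*} (w : Sym2 V → ℕ) (t : ℕ) : SimpleGraph V where
  Adj x y := x ≠ y ∧ w s(x, y) ≤ t
  symm := ⟨fun x y h => ⟨h.1.symm, by rw [Sym2.eq_swap]; exact h.2⟩⟩
  loopless := ⟨fun _ h => h.1 rfl⟩

lemma thr_mono {V : Type*} (w : Sym2 V → ℕ) {s t : ℕ} (h : s ≤ t) : thr w s ≤ thr w t :=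
  fun _ _ hxy => ⟨hxy.1, hxy.2.trans h⟩

lemma exists_forest {V : Type*} (w : Sym2 V → ℕ) (D : ℕ) :
    ∃ F : SimpleGraph V, F ≤ thr w D ∧ F.IsAcyclic ∧
      ∀ t ≤ D, ∀ x y, (thr w t).Reachable x y → (F ⊓ thr w t).Reachable x y := by
  induction D with
  | zero =>
    obtain ⟨F, h1, h2, h3⟩ := (thr w 0).exists_isAcyclic_reachable_eq_le
    refine ⟨F, h1, h2, ?_⟩
    intro t ht x y hxy
    have : t = 0 := by omega
    subst this
    rw [inf_eq_left.2 h1, h3]
    exact hxy
  | succ D ih =>
    obtain ⟨F, h1, h2, h3⟩ := ih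
    obtain ⟨F', h4, h5, h6, h7⟩ :=
      (thr w (D + 1)).exists_isAcyclic_reachable_eq_le_of_le_of_isAcyclic
        (h1.trans (thr_mono w (Nat.le_succ D))) h2
    refine ⟨F', h5, h6, ?_⟩
    intro t ht x y hxy
    rcases Nat.lt_or_ge D t with h8 | h8
    · have : t = D + 1 := by omega
      subst this
      rw [inf_eq_left.2 h5, h7]
      exact hxy
    · exact (h3 t h8 x y hxy).mono (inf_le_inf_right _ h4)

/-- Kruskal's bound. -/
theorem kruskal {V : Type*} [Fintype V] (w : Sym2 V → ℕ) (D : ℕ)
    (hD : (thr w D).Connected) :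
    ∃ (T : SimpleGraph V) (_ : Fintype T.edgeSet), T.IsTree ∧ ∑ e ∈ T.edgeFinset, w e + D ≤
      ∑ t ∈ Finset.range D, Nat.card (thr w t).ConnectedComponent := by
  classical
  obtain ⟨F, h1, h2, h3⟩ := exists_forest w D
  have hconn : F.Connected := by
    have := hD.nonempty
    refine ⟨fun x y => ?_⟩
    have h4 := h3 D le_rfl x y (hD.preconnected x y)
    exact h4.mono inf_le_left
  have htree : F.IsTree := ⟨hconn, h2⟩
  refine ⟨F, inferInstance, htree, ?_⟩
  have hcard := htree.card_edgeFinset
  have hwD : ∀ e ∈ F.edgeFinset, w e = ∑ t ∈ Finset.range D, if t < w e then 1 else 0 := by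
    intro e he
    rw [mem_edgeFinset] at he
    have h4 : w e ≤ D := by
      induction e with
      | _ x y => exact (h1 he).2
    rw [← Finset.card_filter]
    have h5 : (Finset.range D).filter (fun t => t < w e) = Finset.range (w e) := by
      ext t
      simp only [Finset.mem_filter, Finset.mem_range]
      omega
    rw [h5, Finset.card_range]
  have hsum : ∑ e ∈ F.edgeFinset, w e =
      ∑ t ∈ Finset.range D, (F.edgeFinset.filter (fun e => t < w e)).card := by
    rw [Finset.sum_congr rfl hwD, Finset.sum_comm]
    simp_rw [Finset.card_filter]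
  rw [hsum]
  have hD' : D = ∑ _t ∈ Finset.range D, 1 := by simp
  nth_rewrite 2 [hD']
  rw [← Finset.sum_add_distrib]
  refine Finset.sum_le_sum fun t ht => ?_
  rw [Finset.mem_range] at ht
  -- the light edges
  have h4 : (F.edgeFinset.filter (fun e => t < w e)).card +
      (F.edgeFinset.filter (fun e => ¬ t < w e)).card = F.edgeFinset.card :=
    Finset.card_filter_add_card_filter_not _
  have h5 := card_le_edges_add_comp (F ⊓ thr w t)
  have h6 : (F ⊓ thr w t).edgeSet.ncard ≤ (F.edgeFinset.filter (fun e => ¬ t < w e)).card := by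
    rw [← Set.ncard_coe_finset]
    apply Set.ncard_le_ncard _ (Finset.finite_toSet _)
    intro e he
    rw [Finset.mem_coe, Finset.mem_filter, mem_edgeFinset]
    induction e with
    | _ x y =>
      rw [mem_edgeSet] at he
      exact ⟨he.1, not_lt.2 he.2.2⟩
  have h7 : Nat.card (F ⊓ thr w t).ConnectedComponent ≤ Nat.card (thr w t).ConnectedComponent := by
    refine Nat.card_le_card_of_surjective
      (fun C : (thr w t).ConnectedComponent =>
        (F ⊓ thr w t).connectedComponentMk (Quot.out C)) ?_
    intro C
    induction C using ConnectedComponent.ind with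
    | _ v =>
      refine ⟨(thr w t).connectedComponentMk v, ?_⟩
      apply ConnectedComponent.sound
      apply h3 t ht.le
      exact ConnectedComponent.exact (Quot.out_eq _)
  rw [Nat.card_eq_fintype_card] at h5
  omega

end Pool.Agent.Lib.MP_0d3a8b_co
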