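import Mathlib
import Pool.Agent.Lib.MP_0d3a8b_co.Growth

set_option autoImplicit false

/-!
Subdividing a network and letting the mesh tend to zero.
-/

namespace Pool.Agent.Lib.MP_0d3a8b_co

/-- Scaling by `k`. -/
def sc (k : ℕ) (p : Pt) : Pt := (k * p.1, k * p.2)

/-- The network `E` scaled by `k` (a set of lattice points). -/
noncomputable def net (E : Finset (Pt × Fin 3)) (k : ℕ) : Finset Pt :=
  E.biUnion (fun e => seg (sc k e.1) e.2 k)

/-- The end points of the edges of `E`. -/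
noncomputable def verts (E : Finset (Pt × Fin 3)) : Finset Pt :=
  E.image (fun e => e.1) ∪ E.image (fun e => sh e.1 (dir e.2) 1)

/-- The network `E` is connected. -/
def EConn (E : Finset (Pt × Fin 3)) : Prop :=
  ∀ a ∈ verts E, ∀ b ∈ verts E, Relation.ReflTransGen (fun x y => ∃ e ∈ E,
    (e.1 = x ∧ sh e.1 (dir e.2) 1 = y) ∨ (e.1 = y ∧ sh e.1 (dir e.2) 1 = x)) a b

lemma mem_seg {p : Pt} {i : Fin 3} {k : ℕ} {q : Pt} :
    q ∈ seg p i k ↔ ∃ s : ℕ, s ≤ k ∧ q = sh p (dir i) s := by
  unfold seg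
  rw [Finset.mem_image]
  constructor
  · rintro ⟨s, hs, h⟩
    exact ⟨s, by simpa [Nat.lt_succ_iff] using hs, h.symm⟩
  · rintro ⟨s, hs, h⟩
    exact ⟨s, by simpa [Nat.lt_succ_iff] using hs, h.symm⟩

lemma mem_net {E : Finset (Pt × Fin 3)} {k : ℕ} {q : Pt} :
    q ∈ net E k ↔ ∃ e ∈ E, ∃ s : ℕ, s ≤ k ∧ q = sh (sc k e.1) (dir e.2) s := by
  unfold net
  rw [Finset.mem_biUnion]
  simp only [mem_seg]

lemma sc_sh (k : ℕ) (p d : Pt) : sc k (sh p d 1) = sh (sc k p) d k := by
  simp only [sc, sh, Prod.mk.injEq]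
  constructor <;> ring

lemma sc_mem_net {E : Finset (Pt × Fin 3)} {k : ℕ} {p : Pt} (hp : p ∈ verts E) :
    sc k p ∈ net E k := by
  unfold verts at hp
  rw [Finset.mem_union, Finset.mem_image, Finset.mem_image] at hp
  rw [mem_net]
  rcases hp with ⟨e, he, rfl⟩ | ⟨e, he, rfl⟩
  · exact ⟨e, he, 0, Nat.zero_le _, by simp [sh_zero]⟩
  · exact ⟨e, he, k, le_rfl, sc_sh _ _ _⟩

lemma fst_mem_verts {E : Finset (Pt × Fin 3)} {e : Pt × Fin 3} (he : e ∈ E) :
    e.1 ∈ verts E := by
  unfold verts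
  rw [Finset.mem_union, Finset.mem_image]
  exact Or.inl ⟨e, he, rfl⟩

lemma snd_mem_verts {E : Finset (Pt × Fin 3)} {e : Pt × Fin 3} (he : e ∈ E) :
    sh e.1 (dir e.2) 1 ∈ verts E := by
  unfold verts
  rw [Finset.mem_union, Finset.mem_image, Finset.mem_image]
  exact Or.inr ⟨e, he, rfl⟩

lemma card_verts (E : Finset (Pt × Fin 3)) : (verts E).card ≤ 2 * E.card := by
  unfold verts
  refine (Finset.card_union_le _ _).trans ?_
  have h1 := Finset.card_image_le (s := E) (f := fun e => e.1)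
  have h2 := Finset.card_image_le (s := E) (f := fun e => sh e.1 (dir e.2) 1)
  omega

lemma net_interior (E : Finset (Pt × Fin 3)) (k : ℕ) :
    ∀ t ∈ net E k, t ∈ (verts E).image (sc k) ∨
      ∃ i, sh t (dir i) 1 ∈ net E k ∧ sh t (dir i) (-1) ∈ net E k := by
  intro t ht
  obtain ⟨e, he, s, hs, rfl⟩ := mem_net.1 ht
  rcases Nat.eq_zero_or_pos s with h0 | h0
  · left
    subst h0
    rw [Finset.mem_image]
    exact ⟨e.1, fst_mem_verts he, by simp [sh_zero]⟩
  · rcases Nat.lt_or_ge s k with h1 | h1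
    · right
      refine ⟨e.2, ?_, ?_⟩
      · rw [mem_net, sh_sh]
        exact ⟨e, he, s + 1, h1, by push_cast; rfl⟩
      · rw [mem_net, sh_sh]
        refine ⟨e, he, s - 1, by omega, ?_⟩
        congr 1
        omega
    · left
      have : s = k := le_antisymm hs h1
      subst this
      rw [Finset.mem_image]
      exact ⟨_, snd_mem_verts he, sc_sh _ _ _⟩

lemma net_conn {E : Finset (Pt × Fin 3)} (hE : EConn E) (k : ℕ) : Conn (net E k) := by
  set R : Pt → Pt → Prop := fun x y => x ∈ net E k ∧ y ∈ net E k ∧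
    ∃ i : Fin 3, y = sh x (dir i) 1 ∨ x = sh y (dir i) 1 with hR
  have hsymm : ∀ x y, R x y → R y x := by
    rintro x y ⟨h1, h2, i, h3⟩
    exact ⟨h2, h1, i, h3.symm⟩
  have hsymm' : ∀ x y, Relation.ReflTransGen R x y → Relation.ReflTransGen R y x := by
    intro x y h
    induction h with
    | refl => exact Relation.ReflTransGen.refl
    | tail _ hbc ih => exact Relation.ReflTransGen.head (hsymm _ _ hbc) ih
  have h1 : ∀ e ∈ E, ∀ s : ℕ, s ≤ k →
      Relation.ReflTransGen R (sc k e.1) (sh (sc k e.1) (dir e.2) s) := by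
    intro e he s
    induction s with
    | zero => intro _; simpa [sh_zero] using Relation.ReflTransGen.refl
    | succ s ih =>
      intro hs
      refine (ih (by omega)).tail ⟨?_, ?_, e.2, Or.inl ?_⟩
      · exact mem_net.2 ⟨e, he, s, by omega, rfl⟩
      · exact mem_net.2 ⟨e, he, s + 1, hs, rfl⟩
      · rw [sh_sh]; push_cast; rfl
  have h2 : ∀ a b, Relation.ReflTransGen (fun x y => ∃ e ∈ E,
      (e.1 = x ∧ sh e.1 (dir e.2) 1 = y) ∨ (e.1 = y ∧ sh e.1 (dir e.2) 1 = x)) a b →
      Relation.ReflTransGen R (sc k a) (sc k b) := by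
    intro a b h
    induction h with
    | refl => exact Relation.ReflTransGen.refl
    | @tail b c _ hbc ih =>
      obtain ⟨e, he, ⟨rfl, rfl⟩ | ⟨rfl, rfl⟩⟩ := hbc
      · refine ih.trans ?_
        rw [sc_sh]
        exact h1 e he k le_rfl
      · refine ih.trans (hsymm' _ _ ?_)
        rw [sc_sh]
        exact h1 e he k le_rfl
  intro a ha b hb
  obtain ⟨e, he, s, hs, rfl⟩ := mem_net.1 ha
  obtain ⟨e', he', s', hs', rfl⟩ := mem_net.1 hb
  exact (hsymm' _ _ (h1 e he s hs)).trans
    ((h2 e.1 e'.1 (hE _ (fst_mem_verts he) _ (fst_mem_verts he'))).trans (h1 e' he' s' hs'))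

lemma ball_net (E : Finset (Pt × Fin 3)) (k r : ℕ) :
    (ball r (net E k)).card ≤ E.card * ((2 * r + 1) * (2 * r + 1) + k * (2 * r + 1)) := by
  classical
  have h1 : ball r (net E k) ⊆ E.biUnion (fun e => ball r (seg (sc k e.1) e.2 k)) := by
    intro p hp
    obtain ⟨q, hq, h⟩ := mem_ball.1 hp
    unfold net at hq
    rw [Finset.mem_biUnion] at hq
    obtain ⟨e, he, hq⟩ := hq
    rw [Finset.mem_biUnion]
    exact ⟨e, he, mem_ball.2 ⟨q, hq, h⟩⟩
  refine (Finset.card_le_card h1).trans (Finset.card_biUnion_le.trans ?_)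
  refine (Finset.sum_le_sum (fun e _ => ball_seg r (sc k e.1) e.2 k)).trans ?_
  rw [Finset.sum_const, smul_eq_mul]

lemma sum_div (f : ℕ → ℝ) (n : ℕ) (hn : 0 < n) (D : ℕ) :
    ∑ r ∈ Finset.range (D * n), f (r / n) = n * ∑ t ∈ Finset.range D, f t := by
  induction D with
  | zero => simp
  | succ D ih =>
    rw [Nat.succ_mul, Finset.sum_range_add, ih, Finset.sum_range_succ, mul_add]
    congr 1
    have : ∀ i ∈ Finset.range n, f ((D * n + i) / n) = f D := by
      intro i hi
      rw [Finset.mem_range] at hi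
      congr 1
      rw [mul_comm, Nat.mul_add_div hn, Nat.div_eq_of_lt hi, add_zero]
    rw [Finset.sum_congr rfl this, Finset.sum_const, Finset.card_range, nsmul_eq_mul]

/-- The area gap between the network and the terminals. -/
noncomputable def gap (T X : Finset Pt) (r : ℕ) : ℤ :=
  ((ball r T).card : ℤ) - ((tri (ball r X)).card : ℤ)

lemma gap_nonneg {T X : Finset Pt} (h : X ⊆ T) (r : ℕ) : 0 ≤ gap T X r := by
  have h1 := tri_card_le (ball r X)
  have h2 := Finset.card_le_card (ball_mono (r := r) h)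
  unfold gap
  omega

lemma gap_step {ι : Type*} [DecidableEq ι] {r : ℕ} (hr : 0 < r) {X T S : Finset Pt}
    (hXT : X ⊆ T) (hne : T.Nonempty) (hT : Conn T)
    (hS : ∀ t ∈ T, t ∈ S ∨ ∃ i, sh t (dir i) 1 ∈ T ∧ sh t (dir i) (-1) ∈ T)
    (l : Pt → ι) (hl : ∀ x ∈ X, ∀ y ∈ X, Near (2 * r + 1) x y → l x = l y) :
    (r : ℤ) * gap T X (r + 1) ≤ (r + 1) * gap T X r - 3 * (r * r) * ((X.image l).card - 1) +
      r * (6 * S.card) := by
  have h1 := perimeter hr hXT hne hT l hl
  have h2 : ((ball (r + 1) T).card : ℤ) ≤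
      (ball r T).card + ∑ i : Fin 3, (rn (ball r T) i : ℤ) + 6 * S.card := by
    exact_mod_cast ball_growth hS
  have h3 : ((tri (ball r X)).card : ℤ) + ∑ i : Fin 3, (rn (ball r X) i : ℤ) ≤
      (tri (ball (r + 1) X)).card := by
    exact_mod_cast tri_growth r X
  have h4 : ((tri (ball r X)).card : ℤ) ≤ (ball r X).card := by
    exact_mod_cast tri_card_le _
  have hr' : (0 : ℤ) ≤ r := by omega
  have h5 : (r : ℤ) * ((ball (r + 1) T).card : ℤ) ≤
      r * ((ball r T).card + ∑ i : Fin 3, (rn (ball r T) i : ℤ) + 6 * S.card) :=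
    mul_le_mul_of_nonneg_left h2 hr'
  have h6 : (r : ℤ) * (((tri (ball r X)).card : ℤ) + ∑ i : Fin 3, (rn (ball r X) i : ℤ)) ≤
      r * (tri (ball (r + 1) X)).card := mul_le_mul_of_nonneg_left h3 hr'
  unfold gap
  rw [mul_add, mul_add] at h5
  rw [mul_add] at h6
  have h7 : ((r : ℤ) + 1) * (((ball r T).card : ℤ) - ((tri (ball r X)).card : ℤ)) =
      r * (ball r T).card - r * (tri (ball r X)).card + (ball r T).card -
        (tri (ball r X)).card := by ring
  rw [h7, mul_sub]
  linarith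

lemma gap_sum {T X : Finset Pt} {s : ℕ} (hs : 0 < s) (c : ℕ → ℝ) (C : ℝ) (hC : 0 ≤ C)
    (hc : ∀ r, 0 ≤ c r)
    (hstep : ∀ r : ℕ, s ≤ r → (r : ℝ) * gap T X (r + 1) ≤
      (r + 1) * gap T X r - 3 * (r * r) * c r + r * C) (j : ℕ) :
    (gap T X (s + j) : ℝ) / (s + j) ≤ (gap T X s : ℝ) / s -
      3 * (s / (s + 1)) * ∑ i ∈ Finset.range j, c (s + i) + j * (C / (s + 1)) := by
  have hs' : (0 : ℝ) < s := by exact_mod_cast hs
  induction j with
  | zero => simp
  | succ j ih =>
    rw [Finset.sum_range_succ]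
    have h1 := hstep (s + j) (by omega)
    push_cast at h1
    have hr : (0 : ℝ) < s + j := by positivity
    have h2 : (gap T X (s + (j + 1)) : ℝ) / (s + (j + 1)) ≤ (gap T X (s + j) : ℝ) / (s + j) -
        3 * ((s + j) / (s + j + 1)) * c (s + j) + C / (s + j + 1) := by
      have h3 : (s : ℝ) + (j + 1) = s + j + 1 := by ring
      rw [h3]
      rw [show s + (j + 1) = s + j + 1 from rfl]
      have h4 : (gap T X (s + j) : ℝ) / (s + j) -
        3 * ((s + j) / (s + j + 1)) * c (s + j) + C / (s + j + 1) =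
          (((s : ℝ) + j + 1) * gap T X (s + j) - 3 * ((s + j) * (s + j)) * c (s + j) +
            (s + j) * C) / ((s + j) * (s + j + 1)) := by
        field_simp
      rw [h4, div_le_div_iff₀ (by positivity) (by positivity)]
      nlinarith [h1, hr]
    have h5 : (s : ℝ) / (s + 1) ≤ (s + j) / (s + j + 1) := by
      rw [div_le_div_iff₀ (by positivity) (by positivity)]
      have : (0 : ℝ) ≤ j := by positivity
      nlinarith
    have h6 : C / (s + j + 1) ≤ C / (s + 1) := by
      apply div_le_div_of_nonneg_left hC (by positivity)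
      have : (0 : ℝ) ≤ j := by positivity
      linarith
    have h7 : (s : ℝ) / (s + 1) * c (s + j) ≤ (s + j) / (s + j + 1) * c (s + j) :=
      mul_le_mul_of_nonneg_right h5 (hc _)
    push_cast
    have h8 : ((j : ℝ) + 1) * (C / (s + 1)) = j * (C / (s + 1)) + C / (s + 1) := by ring
    rw [h8, mul_add]
    linarith

lemma near_of_sc {k r t : ℕ} (hk : 0 < k) (h : 2 * r + 1 < k * (t + 1)) {x y : Pt}
    (hn : Near (2 * r + 1) (sc k x) (sc k y)) : Near t x y := by
  have hk' : (0 : ℤ) < k := by exact_mod_cast hk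
  have h' : (2 * r + 1 : ℤ) < k * (t + 1) := by exact_mod_cast h
  simp only [Near, sc] at hn ⊢
  have key : ∀ a : ℤ, -(2 * (r : ℤ) + 1) ≤ k * a → k * a ≤ 2 * (r : ℤ) + 1 →
      -(t : ℤ) ≤ a ∧ a ≤ t := by
    intro a h1 h2
    constructor
    · have : (k : ℤ) * (-a) < k * (t + 1) := by
        rw [mul_neg]; linarith
      have := lt_of_mul_lt_mul_left this hk'.le
      omega
    · have : (k : ℤ) * a < k * (t + 1) := by linarith
      have := lt_of_mul_lt_mul_left this hk'.le
      omega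
  obtain ⟨⟨h1, h2⟩, ⟨h3, h4⟩, h5, h6⟩ := hn
  refine ⟨key _ ?_ ?_, key _ ?_ ?_, key _ ?_ ?_⟩ <;>
  · simp only [mul_sub, mul_add]
    linarith

lemma final_arith (s L D n M A G : ℝ) (hs : 1 ≤ s) (hL : 0 ≤ L)
    (h1 : 3 * s * s * A ≤ (s + 1) * G + D * (s * s) * s * (12 * L))
    (hG : G ≤ L * ((2 * s + 1) * (2 * s + 1) + 2 * (s * s) * (2 * s + 1)))
    (hA : s * s * M - s * n ≤ A) :
    s * (3 * M - 4 * L) ≤ 26 * L + 12 * L * D + 3 * n := by
  have hs0 : 0 < s := by linarith
  have h2 : (s + 1) * G ≤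
      (s + 1) * (L * ((2 * s + 1) * (2 * s + 1) + 2 * (s * s) * (2 * s + 1))) :=
    mul_le_mul_of_nonneg_left hG (by linarith)
  have h4 : (s + 1) * ((2 * s + 1) * (2 * s + 1) + 2 * (s * s) * (2 * s + 1)) ≤
      4 * (s * s * (s * s)) + 26 * (s * s * s) := by
    have e0 : 1 ≤ s * s := by nlinarith
    have e1 : s * s ≤ s * s * s := by nlinarith
    have e2 : s ≤ s * s * s := by nlinarith
    have e3 : 1 ≤ s * s * s := by linarith
    nlinarith
  have h3 := mul_le_mul_of_nonneg_left h4 hL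
  have h5 : 3 * s * s * (s * s * M - s * n) ≤ 3 * s * s * A :=
    mul_le_mul_of_nonneg_left hA (by positivity)
  have h6 : s * s * s * (s * (3 * M - 4 * L)) ≤
      s * s * s * (26 * L + 12 * L * D + 3 * n) := by
    linarith
  exact le_of_mul_le_mul_left h6 (by positivity)

/-- The main inequality for networks given by unit edges in coordinates. -/
theorem steiner_key {ι : Type*} [DecidableEq ι] (E : Finset (Pt × Fin 3)) (hE : EConn E)
    (X : Finset Pt) (hX : X ⊆ verts E) (hne : X.Nonempty) (l : ℕ → Pt → ι)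
    (hl : ∀ t : ℕ, ∀ x ∈ X, ∀ y ∈ X, Near t x y → l t x = l t y) (D : ℕ) :
    3 * ∑ t ∈ Finset.range D, (((X.image (l t)).card : ℤ) - 1) ≤ 4 * E.card := by
  classical
  rcases Nat.eq_zero_or_pos D with hD | hD
  · subst hD
    simp
  by_contra hcon
  rw [not_le] at hcon
  set L : ℕ := E.card with hL
  set n : ℕ := X.card with hn
  set s : ℕ := 26 * L + 12 * L * D + 3 * n + 1 with hs
  have hs0 : 0 < s := by omega
  set k : ℕ := 2 * (s * s) with hk
  have hss : 0 < s * s := Nat.mul_pos hs0 hs0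
  have hk0 : 0 < k := by omega
  set T := net E k with hT
  set X' := X.image (sc k) with hX'
  set S := (verts E).image (sc k) with hS
  have hXT : X' ⊆ T := by
    intro p hp
    rw [hX', Finset.mem_image] at hp
    obtain ⟨x, hx, rfl⟩ := hp
    exact sc_mem_net (hX hx)
  have hTne : T.Nonempty := by
    obtain ⟨x, hx⟩ := hne
    exact ⟨sc k x, hXT (Finset.mem_image_of_mem _ hx)⟩
  have hScard : S.card ≤ 2 * L := Finset.card_image_le.trans (card_verts E)
  let c : ℕ → ℝ := fun r => ((X.image (l (r / (s * s)))).card : ℝ) - 1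
  have hc : ∀ r, 0 ≤ c r := by
    intro r
    have : 1 ≤ (X.image (l (r / (s * s)))).card := Finset.card_pos.2 (hne.image _)
    have : (1 : ℝ) ≤ (X.image (l (r / (s * s)))).card := by exact_mod_cast this
    simp only [c]
    linarith
  have hstep : ∀ r : ℕ, s ≤ r → (r : ℝ) * gap T X' (r + 1) ≤
      (r + 1) * gap T X' r - 3 * (r * r) * c r + r * ((12 * L : ℕ) : ℝ) := by
    intro r hr
    have hr0 : 0 < r := by omega
    let l' : Pt → ι := fun p => l (r / (s * s)) (p.1 / (k : ℤ), p.2 / (k : ℤ))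
    have hl' : ∀ x, l' (sc k x) = l (r / (s * s)) x := by
      intro x
      simp only [l', sc]
      have hk' : (k : ℤ) ≠ 0 := by omega
      rw [Int.mul_ediv_cancel_left _ hk', Int.mul_ediv_cancel_left _ hk']
    have h1 := gap_step hr0 hXT hTne (net_conn hE k) (net_interior E k) l' (by
      intro x hx y hy hxy
      rw [hX', Finset.mem_image] at hx hy
      obtain ⟨x, hx, rfl⟩ := hx
      obtain ⟨y, hy, rfl⟩ := hy
      rw [hl', hl']
      refine hl _ x hx y hy (near_of_sc hk0 ?_ hxy)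
      have h2 : r < s * s * (r / (s * s) + 1) := Nat.lt_mul_div_succ r hss
      rw [hk, mul_assoc]
      omega)
    have h2 : X'.image l' = X.image (l (r / (s * s))) := by
      rw [hX', Finset.image_image]
      congr 1
      funext x
      exact hl' x
    rw [h2] at h1
    have h3 : (r : ℤ) * (6 * S.card) ≤ r * ((12 * L : ℕ) : ℤ) := by
      apply mul_le_mul_of_nonneg_left _ (by omega)
      push_cast
      have : (S.card : ℤ) ≤ 2 * L := by exact_mod_cast hScard
      linarith
    have h4 : (r : ℤ) * gap T X' (r + 1) ≤ (r + 1) * gap T X' r -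
        3 * (r * r) * ((X.image (l (r / (s * s)))).card - 1) + r * ((12 * L : ℕ) : ℤ) := by
      linarith
    simp only [c]
    exact_mod_cast h4
  have hsum := gap_sum hs0 c ((12 * L : ℕ) : ℝ) (by positivity) hc hstep (D * (s * s) - s)
  have hsle : s ≤ D * (s * s) := by
    calc s = 1 * (s * 1) := by ring
      _ ≤ D * (s * s) := Nat.mul_le_mul hD (Nat.mul_le_mul le_rfl hs0)
  -- lower bound for the left hand side
  have hlow : (0 : ℝ) ≤ (gap T X' (s + (D * (s * s) - s)) : ℝ) /
      (s + ((D * (s * s) - s : ℕ) : ℝ)) := by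
    apply div_nonneg
    · exact_mod_cast gap_nonneg hXT _
    · positivity
  -- upper bound for the start
  have hstart : (gap T X' s : ℝ) ≤ L * ((2 * s + 1) * (2 * s + 1) + 2 * (s * s) * (2 * s + 1)) := by
    have h1 := ball_net E k s
    have h2 : (gap T X' s : ℝ) ≤ ((ball s T).card : ℝ) := by
      have : gap T X' s ≤ ((ball s T).card : ℤ) := by
        unfold gap
        omega
      exact_mod_cast this
    refine h2.trans ?_
    rw [hT]
    have h3 : ((ball s (net E k)).card : ℝ) ≤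
        ((E.card * ((2 * s + 1) * (2 * s + 1) + k * (2 * s + 1)) : ℕ) : ℝ) := by
      exact_mod_cast h1
    refine h3.trans (le_of_eq ?_)
    rw [hk]
    push_cast
    ring
  -- the sum
  have hM : ∑ r ∈ Finset.range (D * (s * s)), c r =
      ((s * s : ℕ) : ℝ) * ∑ t ∈ Finset.range D, (((X.image (l t)).card : ℝ) - 1) :=
    sum_div (fun t => ((X.image (l t)).card : ℝ) - 1) (s * s) hss D
  have hsplit : ∑ r ∈ Finset.range (D * (s * s)), c r =
      ∑ r ∈ Finset.range s, c r + ∑ i ∈ Finset.range (D * (s * s) - s), c (s + i) := by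
    rw [← Finset.sum_range_add]
    congr 2
    omega
  have hsmall : ∑ r ∈ Finset.range s, c r ≤ s * n := by
    have : ∀ r ∈ Finset.range s, c r ≤ n := by
      intro r _
      simp only [c]
      have h1 : (X.image (l (r / (s * s)))).card ≤ n := Finset.card_image_le
      have h2 : ((X.image (l (r / (s * s)))).card : ℝ) ≤ n := by exact_mod_cast h1
      linarith
    refine (Finset.sum_le_sum this).trans ?_
    rw [Finset.sum_const, Finset.card_range, nsmul_eq_mul]
  set M : ℝ := ∑ t ∈ Finset.range D, (((X.image (l t)).card : ℝ) - 1) with hMdef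
  have hMint : 4 * (L : ℝ) + 1 ≤ 3 * M := by
    have h1 : 4 * (L : ℤ) + 1 ≤ 3 * ∑ t ∈ Finset.range D, (((X.image (l t)).card : ℤ) - 1) := by
      omega
    have h2 : ((4 * (L : ℤ) + 1 : ℤ) : ℝ) ≤
        ((3 * ∑ t ∈ Finset.range D, (((X.image (l t)).card : ℤ) - 1) : ℤ) : ℝ) := by
      exact_mod_cast h1
    push_cast at h2
    exact h2
  set A : ℝ := ∑ i ∈ Finset.range (D * (s * s) - s), c (s + i) with hA
  have hAlow : (s : ℝ) * s * M - s * n ≤ A := by
    rw [hM] at hsplit
    push_cast at hsplit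
    linarith
  have hs1 : (1 : ℝ) ≤ s := by exact_mod_cast hs0
  have hjle : ((D * (s * s) - s : ℕ) : ℝ) ≤ D * (s * s) := by
    have : D * (s * s) - s ≤ D * (s * s) := Nat.sub_le _ _
    exact_mod_cast this
  have hfinal : 3 * (s / (s + 1)) * A ≤ (gap T X' s : ℝ) / s +
      (D * (s * s)) * (((12 * L : ℕ) : ℝ) / (s + 1)) := by
    have h1 : ((D * (s * s) - s : ℕ) : ℝ) * (((12 * L : ℕ) : ℝ) / (s + 1)) ≤
        (D * (s * s)) * (((12 * L : ℕ) : ℝ) / (s + 1)) :=
      mul_le_mul_of_nonneg_right hjle (by positivity)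
    linarith
  have hspos : (0 : ℝ) < s := by linarith
  -- clear denominators
  have h1 : 3 * s * s * A ≤ (s + 1) * (gap T X' s : ℝ) + D * (s * s) * s * (12 * L) := by
    have h2 : (s : ℝ) * (s + 1) * (3 * (s / (s + 1)) * A) ≤ s * (s + 1) *
        ((gap T X' s : ℝ) / s + (D * (s * s)) * (((12 * L : ℕ) : ℝ) / (s + 1))) :=
      mul_le_mul_of_nonneg_left hfinal (by positivity)
    have h3 : (s : ℝ) * (s + 1) * (3 * (s / (s + 1)) * A) = 3 * s * s * A := by
      field_simp
    have h4 : (s : ℝ) * (s + 1) *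
        ((gap T X' s : ℝ) / s + (D * (s * s)) * (((12 * L : ℕ) : ℝ) / (s + 1))) =
        (s + 1) * (gap T X' s : ℝ) + D * (s * s) * s * (12 * L) := by
      push_cast
      field_simp
    rw [h3, h4] at h2
    exact h2
  have h6 : (s : ℝ) * (3 * M - 4 * L) ≤ 26 * L + 12 * L * D + 3 * n :=
    final_arith s L D n M A _ hs1 (by positivity) h1 hstart hAlow
  have h7 : (s : ℝ) * 1 ≤ s * (3 * M - 4 * L) :=
    mul_le_mul_of_nonneg_left (by linarith) hspos.le
  have h8 : (s : ℝ) = 26 * L + 12 * L * D + 3 * n + 1 := by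
    rw [hs]
    push_cast
    ring
  linarith

end Pool.Agent.Lib.MP_0d3a8b_co
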